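import Mathlib

open Finset Filter Topology

namespace Pool.Agent.Lib.MP_ce738d_pr

/-- `h_{m-1}` as a real number. -/
noncomputable def hh (m : ℕ) : ℝ := ((harmonic (m - 1) : ℚ) : ℝ)

lemma log_le_hh {m : ℕ} (hm : 1 ≤ m) : Real.log m ≤ hh m := by
  have := log_add_one_le_harmonic (m - 1)
  have h2 : m - 1 + 1 = m := by omega
  rw [h2] at this
  exact this

lemma hh_le {m : ℕ} (hm : 2 ≤ m) : hh m ≤ 1 + Real.log m := by
  have := harmonic_le_one_add_log (m - 1)
  refine this.trans ?_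
  have h1 : Real.log ((m - 1 : ℕ) : ℝ) ≤ Real.log m := by
    apply Real.log_le_log
    · have : 1 ≤ m - 1 := by omega
      exact_mod_cast this
    · exact_mod_cast Nat.sub_le m 1
  linarith

lemma hh_pos {m : ℕ} (hm : 2 ≤ m) : 0 < hh m := by
  have : 0 < harmonic (m - 1) := harmonic_pos (by omega)
  unfold hh
  exact_mod_cast this

lemma log_tendsto : Tendsto (fun m : ℕ => Real.log (m : ℝ)) atTop atTop :=
  Real.tendsto_log_atTop.comp tendsto_natCast_atTop_atTop

section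

variable (a : ℕ → ℝ) (p : ℕ → ℕ → ℝ) (r : ℕ → ℕ → ℕ) (D C : ℝ)

/-- `∑_i h_m p(m,i) log (m / r(m,i))` -/
noncomputable def Dm (m : ℕ) : ℝ := ∑ i ∈ Ico 1 m, hh m * p m i * Real.log ((m : ℝ) / r m i)

/-- `∑_i h_m p(m,i) log (m / r(m,i)) ^ 2` -/
noncomputable def Sm (m : ℕ) : ℝ :=
  ∑ i ∈ Ico 1 m, hh m * p m i * Real.log ((m : ℝ) / r m i) ^ 2

lemma sum_log_sq (m : ℕ) (hm : 2 ≤ m)
    (hp1 : ∑ i ∈ Ico 1 m, p m i = 1)
    (hr : ∀ i ∈ Ico 1 m, 1 ≤ r m i ∧ r m i < m) :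
    ∑ i ∈ Ico 1 m, p m i * Real.log (r m i) ^ 2 =
      Real.log m ^ 2 - (2 * Real.log m * Dm p r m - Sm p r m) / hh m := by
  have hH := hh_pos hm
  rw [eq_sub_iff_add_eq, div_eq_mul_inv, sub_mul]
  unfold Dm Sm
  rw [mul_sum, sum_mul, sum_mul, ← sum_sub_distrib, ← sum_add_distrib]
  have : Real.log m ^ 2 = ∑ i ∈ Ico 1 m, p m i * Real.log m ^ 2 := by
    rw [← sum_mul, hp1, one_mul]
  rw [this]
  apply sum_congr rfl
  intro i hi
  have hr1 := (hr i hi).1
  have hm0 : (0 : ℝ) < m := by exact_mod_cast (by omega : 0 < m)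
  have hr0 : (0 : ℝ) < r m i := by exact_mod_cast (by omega : 0 < r m i)
  rw [Real.log_div hm0.ne' hr0.ne']
  field_simp
  ring

lemma upper_bound (hD : 0 < D)
    (hp0 : ∀ m, 2 ≤ m → ∀ i ∈ Ico 1 m, 0 ≤ p m i)
    (hp1 : ∀ m, 2 ≤ m → ∑ i ∈ Ico 1 m, p m i = 1)
    (hr : ∀ m, 2 ≤ m → ∀ i ∈ Ico 1 m, 1 ≤ r m i ∧ r m i < m)
    (harec : ∀ m, 2 ≤ m → a m = 1 + ∑ i ∈ Ico 1 m, p m i * a (r m i))
    (hDlim : Tendsto (Dm p r) atTop (𝓝 D))
    (hS : ∀ m, 2 ≤ m → Sm p r m ≤ C)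
    (c : ℝ) (hc : 1 / (2 * D) < c) :
    ∃ K : ℝ, ∀ m : ℕ, 1 ≤ m → a m ≤ c * Real.log m ^ 2 + K := by
  have hc0 : 0 < c := lt_trans (by positivity) hc
  have hcD : 1 < 2 * c * D := by
    rw [div_lt_iff₀ (by positivity)] at hc
    linarith
  -- eventually `c (2 log m D_m - C) ≥ 1 + log m`
  have hev : ∀ᶠ m : ℕ in atTop, 1 + Real.log m ≤ c * (2 * Real.log m * Dm p r m - C) := by
    obtain ⟨D', hD'1, hD'2⟩ : ∃ D', 1 < 2 * c * D' ∧ D' < D := by
      refine ⟨(1 / (2 * c) + D) / 2, ?_, ?_⟩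
      · have : 2 * c * ((1 / (2 * c) + D) / 2) = (1 + 2 * c * D) / 2 := by
          field_simp
        rw [this]; linarith
      · have : 1 / (2 * c) < D := by
          rw [div_lt_iff₀ (by positivity)]
          linarith
        linarith
    have h1 : ∀ᶠ m : ℕ in atTop, D' < Dm p r m := hDlim.eventually (lt_mem_nhds hD'2)
    have h2 : ∀ᶠ m : ℕ in atTop, (1 + c * C) / (2 * c * D' - 1) ≤ Real.log m :=
      log_tendsto.eventually_ge_atTop _
    have h3 : ∀ᶠ m : ℕ in atTop, (0 : ℝ) ≤ Real.log m := log_tendsto.eventually_ge_atTop 0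
    filter_upwards [h1, h2, h3] with m h1 h2 h3
    rw [div_le_iff₀ (by linarith)] at h2
    have h4 : 2 * c * Real.log m * D' ≤ 2 * c * Real.log m * Dm p r m := by
      apply mul_le_mul_of_nonneg_left h1.le
      positivity
    nlinarith
  obtain ⟨m₀, hm₀⟩ := eventually_atTop.mp hev
  set m₁ := max m₀ 2 with hm₁
  -- bound on the initial segment
  obtain ⟨K, hK⟩ : ∃ K : ℝ, ∀ m, m < m₁ → a m ≤ K := by
    refine ⟨∑ m ∈ range m₁, |a m|, fun m hm => ?_⟩
    exact (le_abs_self _).trans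
      (single_le_sum (f := fun m => |a m|) (fun i _ => abs_nonneg _) (mem_range.mpr hm))
  refine ⟨K, ?_⟩
  intro m
  induction m using Nat.strong_induction_on with
  | _ m ih =>
    intro hm
    rcases lt_or_ge m m₁ with h | h
    · have := hK m h
      have h2 : 0 ≤ c * Real.log m ^ 2 := by positivity
      linarith
    · have hm2 : 2 ≤ m := le_trans (le_max_right _ _) h
      have hH := hh_pos hm2
      rw [harec m hm2]
      have h1 : ∑ i ∈ Ico 1 m, p m i * a (r m i) ≤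
          ∑ i ∈ Ico 1 m, p m i * (c * Real.log (r m i) ^ 2 + K) := by
        apply sum_le_sum
        intro i hi
        apply mul_le_mul_of_nonneg_left _ (hp0 m hm2 i hi)
        exact ih _ (hr m hm2 i hi).2 (hr m hm2 i hi).1
      have h2 : ∑ i ∈ Ico 1 m, p m i * (c * Real.log (r m i) ^ 2 + K) =
          c * (∑ i ∈ Ico 1 m, p m i * Real.log (r m i) ^ 2) + K := by
        have : ∀ i ∈ Ico 1 m, p m i * (c * Real.log (r m i) ^ 2 + K) =
            c * (p m i * Real.log (r m i) ^ 2) + p m i * K := by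
          intro i _; ring
        rw [sum_congr rfl this, sum_add_distrib, ← mul_sum, ← sum_mul, hp1 m hm2, one_mul]
      rw [h2, sum_log_sq p r m hm2 (hp1 m hm2) (hr m hm2)] at h1
      have h3 := hm₀ m (le_trans (le_max_left _ _) h)
      have h4 := hS m hm2
      have h5 := hh_le hm2
      have h6 : 1 ≤ c * ((2 * Real.log m * Dm p r m - Sm p r m) / hh m) := by
        rw [← mul_div_assoc, le_div_iff₀ hH, one_mul]
        have : c * Sm p r m ≤ c * C := mul_le_mul_of_nonneg_left h4 hc0.le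
        nlinarith
      nlinarith

lemma lower_bound (hD : 0 < D)
    (hp0 : ∀ m, 2 ≤ m → ∀ i ∈ Ico 1 m, 0 ≤ p m i)
    (hp1 : ∀ m, 2 ≤ m → ∑ i ∈ Ico 1 m, p m i = 1)
    (hr : ∀ m, 2 ≤ m → ∀ i ∈ Ico 1 m, 1 ≤ r m i ∧ r m i < m)
    (ha0 : ∀ m, 1 ≤ m → 0 ≤ a m)
    (harec : ∀ m, 2 ≤ m → a m = 1 + ∑ i ∈ Ico 1 m, p m i * a (r m i))
    (hDlim : Tendsto (Dm p r) atTop (𝓝 D))
    (c : ℝ) (hc0 : 0 < c) (hc : c < 1 / (2 * D)) :
    ∃ K : ℝ, ∀ m : ℕ, 1 ≤ m → c * Real.log m ^ 2 - K ≤ a m := by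
  have hcD : 2 * c * D < 1 := by
    rw [lt_div_iff₀ (by positivity)] at hc
    linarith
  have hev : ∀ᶠ m : ℕ in atTop, 2 * c * Dm p r m ≤ 1 := by
    have h1 : Tendsto (fun m => 2 * c * Dm p r m) atTop (𝓝 (2 * c * D)) :=
      hDlim.const_mul _
    filter_upwards [h1.eventually (gt_mem_nhds hcD)] with m hm
    exact hm.le
  obtain ⟨m₀, hm₀⟩ := eventually_atTop.mp hev
  set m₁ := max m₀ 2 with hm₁
  refine ⟨c * Real.log m₁ ^ 2, ?_⟩
  intro m
  induction m using Nat.strong_induction_on with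
  | _ m ih =>
    intro hm
    have hlogm : 0 ≤ Real.log m := Real.log_natCast_nonneg m
    rcases lt_or_ge m m₁ with h | h
    · have h1 : Real.log m ≤ Real.log m₁ := by
        apply Real.log_le_log
        · exact_mod_cast hm
        · exact_mod_cast h.le
      have h2 : Real.log m ^ 2 ≤ Real.log m₁ ^ 2 := pow_le_pow_left₀ hlogm h1 2
      have h3 : c * Real.log m ^ 2 ≤ c * Real.log m₁ ^ 2 := mul_le_mul_of_nonneg_left h2 hc0.le
      linarith [ha0 m hm]
    · have hm2 : 2 ≤ m := le_trans (le_max_right _ _) h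
      have hH := hh_pos hm2
      rw [harec m hm2]
      have h1 : ∑ i ∈ Ico 1 m, p m i * (c * Real.log (r m i) ^ 2 - c * Real.log m₁ ^ 2) ≤
          ∑ i ∈ Ico 1 m, p m i * a (r m i) := by
        apply sum_le_sum
        intro i hi
        apply mul_le_mul_of_nonneg_left _ (hp0 m hm2 i hi)
        exact ih _ (hr m hm2 i hi).2 (hr m hm2 i hi).1
      have h2 : ∑ i ∈ Ico 1 m, p m i * (c * Real.log (r m i) ^ 2 - c * Real.log m₁ ^ 2) =
          c * (∑ i ∈ Ico 1 m, p m i * Real.log (r m i) ^ 2) - c * Real.log m₁ ^ 2 := by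
        have : ∀ i ∈ Ico 1 m, p m i * (c * Real.log (r m i) ^ 2 - c * Real.log m₁ ^ 2) =
            c * (p m i * Real.log (r m i) ^ 2) - p m i * (c * Real.log m₁ ^ 2) := by
          intro i _; ring
        rw [sum_congr rfl this, sum_sub_distrib, ← mul_sum, ← sum_mul, hp1 m hm2, one_mul]
      rw [h2, sum_log_sq p r m hm2 (hp1 m hm2) (hr m hm2)] at h1
      have h3 := hm₀ m (le_trans (le_max_left _ _) h)
      have h5 := log_le_hh hm
      have hS0 : 0 ≤ Sm p r m := by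
        unfold Sm
        apply sum_nonneg
        intro i hi
        have := hp0 m hm2 i hi
        positivity
      have h6 : c * ((2 * Real.log m * Dm p r m - Sm p r m) / hh m) ≤ 1 := by
        rw [← mul_div_assoc, div_le_iff₀ hH, one_mul]
        have : 0 ≤ c * Sm p r m := by positivity
        nlinarith
      nlinarith

theorem asymp (hD : 0 < D)
    (hp0 : ∀ m, 2 ≤ m → ∀ i ∈ Ico 1 m, 0 ≤ p m i)
    (hp1 : ∀ m, 2 ≤ m → ∑ i ∈ Ico 1 m, p m i = 1)
    (hr : ∀ m, 2 ≤ m → ∀ i ∈ Ico 1 m, 1 ≤ r m i ∧ r m i < m)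
    (ha0 : ∀ m, 1 ≤ m → 0 ≤ a m)
    (harec : ∀ m, 2 ≤ m → a m = 1 + ∑ i ∈ Ico 1 m, p m i * a (r m i))
    (hDlim : Tendsto (Dm p r) atTop (𝓝 D))
    (hS : ∀ m, 2 ≤ m → Sm p r m ≤ C) :
    Tendsto (fun m : ℕ => a m / Real.log m ^ 2) atTop (𝓝 (1 / (2 * D))) := by
  have hsq : Tendsto (fun m : ℕ => Real.log m ^ 2) atTop atTop :=
    (tendsto_pow_atTop (two_ne_zero)).comp log_tendsto
  have hpos : ∀ᶠ m : ℕ in atTop, 0 < Real.log (m : ℝ) ^ 2 := hsq.eventually_gt_atTop 0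
  rw [tendsto_order]
  constructor
  · intro b hb
    rcases le_or_gt b 0 with hb0 | hb0
    · -- need a positive bound: use c = 1/(4D)
      obtain ⟨K, hK⟩ := lower_bound a p r D hD hp0 hp1 hr ha0 harec hDlim (1 / (4 * D))
        (by positivity) (by
          apply one_div_lt_one_div_of_lt (by positivity)
          linarith)
      have hev : ∀ᶠ m : ℕ in atTop, K * (4 * D) < Real.log (m : ℝ) ^ 2 :=
        hsq.eventually_gt_atTop _
      filter_upwards [hpos, eventually_ge_atTop 1, hev] with m h1 h2 h3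
      have h4 := hK m h2
      have h5 : 0 < a m := by
        have : K < 1 / (4 * D) * Real.log (m : ℝ) ^ 2 := by
          rw [one_div, inv_mul_eq_div, lt_div_iff₀ (by positivity)]
          exact h3
        linarith
      exact lt_of_le_of_lt hb0 (by positivity)
    · set c := (b + 1 / (2 * D)) / 2 with hc
      have hc1 : b < c := by rw [hc]; linarith
      have hc2 : c < 1 / (2 * D) := by rw [hc]; linarith
      obtain ⟨K, hK⟩ := lower_bound a p r D hD hp0 hp1 hr ha0 harec hDlim c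
        (by linarith) hc2
      have hev : ∀ᶠ m : ℕ in atTop, K / (c - b) < Real.log (m : ℝ) ^ 2 :=
        hsq.eventually_gt_atTop _
      filter_upwards [hpos, eventually_ge_atTop 1, hev] with m h1 h2 h3
      rw [div_lt_iff₀ (by linarith)] at h3
      rw [lt_div_iff₀ h1]
      have h4 := hK m h2
      nlinarith
  · intro b hb
    set c := (b + 1 / (2 * D)) / 2 with hc
    have hc1 : c < b := by rw [hc]; linarith
    have hc2 : 1 / (2 * D) < c := by rw [hc]; linarith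
    obtain ⟨K, hK⟩ := upper_bound a p r D C hD hp0 hp1 hr harec hDlim hS c hc2
    have hev : ∀ᶠ m : ℕ in atTop, K / (b - c) < Real.log (m : ℝ) ^ 2 :=
      hsq.eventually_gt_atTop _
    filter_upwards [hpos, eventually_ge_atTop 1, hev] with m h1 h2 h3
    rw [div_lt_iff₀ (by linarith)] at h3
    rw [div_lt_iff₀ h1]
    have h4 := hK m h2
    nlinarith

end

end Pool.Agent.Lib.MP_ce738d_pr
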