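import Mathlib

/-!
# The discrete-time critical beta-splitting tree DTCS(n)

Binary trees are Mathlib's `BinaryTree Unit`: `nil` is a leaf and `node () l r` is a split.
-/

open Finset

namespace Pool.Agent.Lib.MP_ce738d_pr

/-- The split probability `q(m,i) = m / (2 h_{m-1} i (m-i))` of a clade of size `m` into
sub-clades of sizes `i` and `m - i`; `harmonic (m-1)` is `h_{m-1} = 1 + 1/2 + ... + 1/(m-1)`. -/
noncomputable def splitProb (m i : ℕ) : ℝ :=
  (m : ℝ) / (2 * (harmonic (m - 1) : ℝ) * (i : ℝ) * ((m : ℝ) - (i : ℝ)))

lemma harmonic_real (n : ℕ) : ((harmonic n : ℚ) : ℝ) = ∑ i ∈ range n, 1 / ((i : ℝ) + 1) := by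
  simp [harmonic, one_div]

lemma harmonic_real_pos {n : ℕ} (hn : 1 ≤ n) : 0 < ((harmonic n : ℚ) : ℝ) := by
  have : 0 < harmonic n := harmonic_pos (by omega)
  exact_mod_cast this

lemma splitProb_nonneg {m i : ℕ} (hi : i ≤ m) : 0 ≤ splitProb m i := by
  unfold splitProb
  have h0 : 0 ≤ harmonic (m - 1) := by
    rcases Nat.eq_zero_or_pos (m - 1) with h | h
    · rw [h]; simp
    · exact (harmonic_pos (by omega)).le
  have h1 : (0 : ℝ) ≤ ((harmonic (m - 1) : ℚ) : ℝ) := by exact_mod_cast h0
  have h2 : (i : ℝ) ≤ m := by exact_mod_cast hi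
  have h3 : (0 : ℝ) ≤ (m : ℝ) - i := by linarith
  positivity

/-- `∑_{i=1}^{m-1} q(m,i) = 1`, written with `m = k + 2`. -/
lemma sum_splitProb (k : ℕ) :
    ∑ i ∈ range (k + 1), splitProb (k + 2) (i + 1) = 1 := by
  have hH : 0 < ((harmonic (k + 1) : ℚ) : ℝ) := harmonic_real_pos (by omega)
  have key : ∀ i ∈ range (k + 1), splitProb (k + 2) (i + 1) =
      (1 / (2 * (harmonic (k + 1) : ℝ))) * (1 / ((i : ℝ) + 1) + 1 / (((k - i : ℕ) : ℝ) + 1)) := by
    intro i hi
    have hik : i ≤ k := by
      have := mem_range.mp hi
      omega
    have h1 : (((k - i : ℕ) : ℝ)) = (k : ℝ) - i := by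
      push_cast [Nat.cast_sub hik]; ring
    have h2 : (0 : ℝ) < (k : ℝ) - i + 1 := by
      have : (i : ℝ) ≤ k := by exact_mod_cast hik
      linarith
    have h3 : (0 : ℝ) < (i : ℝ) + 1 := by positivity
    unfold splitProb
    rw [h1]
    have h4 : k + 2 - 1 = k + 1 := by omega
    rw [h4]
    push_cast
    have h5 : ((k : ℝ) + 2 - ((i : ℝ) + 1)) = (k : ℝ) - i + 1 := by ring
    rw [h5]
    field_simp
    ring
  rw [sum_congr rfl key, ← mul_sum, sum_add_distrib]
  have hrefl : ∑ i ∈ range (k + 1), 1 / (((k - i : ℕ) : ℝ) + 1) =
      ∑ i ∈ range (k + 1), 1 / ((i : ℝ) + 1) := by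
    have := sum_range_reflect (fun i : ℕ => 1 / ((i : ℝ) + 1)) (k + 1)
    simpa using this
  rw [hrefl, ← harmonic_real]
  field_simp
  ring

/-- The law of the left sub-clade size of a clade of size `k + 2`: the value `i : Fin (k+1)`
stands for a left sub-clade of size `i + 1` and a right sub-clade of size `k + 1 - i`, and has
probability `q(k+2, i+1)`. -/
noncomputable def splitPMF (k : ℕ) : PMF (Fin (k + 1)) :=
  PMF.ofFintype (fun i => ENNReal.ofReal (splitProb (k + 2) (i + 1))) (by
    rw [← ENNReal.ofReal_sum_of_nonneg (fun i _ => splitProb_nonneg (by omega))]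
    rw [Fin.sum_univ_eq_sum_range (fun i => splitProb (k + 2) (i + 1)) (k + 1), sum_splitProb]
    simp)

/-- The law of the random tree DTCS(n): a clade of size at most one is a leaf; a clade of size
`m = k + 2` splits into sub-clades of sizes `i + 1` and `k + 1 - i` with probability
`q(k+2, i+1)`, and the two sub-clades are then independent copies of DTCS(i+1), DTCS(k+1-i). -/
noncomputable def dtcs : ℕ → PMF (BinaryTree Unit)
  | 0 => PMF.pure BinaryTree.nil
  | 1 => PMF.pure BinaryTree.nil
  | (k + 2) => (splitPMF k).bind fun i : Fin (k + 1) =>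
      (dtcs (i + 1)).bind fun l => (dtcs (k + 1 - i)).map fun r => BinaryTree.node () l r

/-- Expectation of a real-valued function of the random tree DTCS(n). -/
noncomputable def expect (n : ℕ) (f : BinaryTree Unit → ℝ) : ℝ :=
  ∑' t, (dtcs n t).toReal * f t

/-- The list of the depths (numbers of edges from the root) of all the leaves of a tree. -/
def leafDepths : BinaryTree Unit → List ℕ
  | BinaryTree.nil => [0]
  | BinaryTree.node _ l r => (leafDepths l ++ leafDepths r).map (· + 1)

/-- The depth of a uniformly random leaf of the tree `t`, averaged over the choice of the leaf. -/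
noncomputable def meanLeafDepth (t : BinaryTree Unit) : ℝ :=
  ((leafDepths t).sum : ℝ) / ((leafDepths t).length : ℝ)

/-- The length of the greedy path, averaged over the choices at ties: at a split into two
sub-clades of different sizes the path goes to the larger one, and at a split into two equal
halves it goes to the left one with probability `β` and to the right one with probability
`1 - β`, independently of everything else (`β = 1/2` is a fair coin, `β = 1` and `β = 0` always
take the left, resp. the right half). -/
noncomputable def greedyLength (β : ℝ) : BinaryTree Unit → ℝ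
  | BinaryTree.nil => 0
  | BinaryTree.node _ l r =>
      if r.numLeaves < l.numLeaves then 1 + greedyLength β l
      else if l.numLeaves < r.numLeaves then 1 + greedyLength β r
      else 1 + (β * greedyLength β l + (1 - β) * greedyLength β r)

/-- `E[L_n]`, where `L_n` is the depth of a uniformly random leaf of DTCS(n). -/
noncomputable def EL (n : ℕ) : ℝ := expect n meanLeafDepth

/-- `E[L⁺_n]`, where `L⁺_n` is the length of the greedy path of DTCS(n). -/
noncomputable def ELplus (β : ℝ) (n : ℕ) : ℝ := expect n (greedyLength β)

/-- `E[L^*_n]`, where `L^*_n` is the height of DTCS(n), the maximal depth of a leaf. -/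
noncomputable def ELstar (n : ℕ) : ℝ := expect n fun t => (t.height : ℝ)

/-! ### Sanity checks -/

lemma length_leafDepths (t : BinaryTree Unit) : (leafDepths t).length = t.numLeaves := by
  induction t with
  | nil => simp [leafDepths]
  | node _ l r hl hr => simp [leafDepths, hl, hr]

lemma leafDepths_ne_nil (t : BinaryTree Unit) : leafDepths t ≠ [] := by
  intro h
  have := length_leafDepths t
  rw [h] at this
  have h2 := BinaryTree.numLeaves_pos t
  simp at this
  omega

/-- The height is the maximal depth of a leaf: it bounds all depths and it is a depth. -/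
lemma height_isMax (t : BinaryTree Unit) :
    t.height ∈ leafDepths t ∧ ∀ d ∈ leafDepths t, d ≤ t.height := by
  induction t with
  | nil => simp [leafDepths]
  | node _ l r hl hr =>
    constructor
    · simp only [BinaryTree.height, leafDepths, List.mem_map, List.mem_append]
      rcases le_total l.height r.height with h | h
      · exact ⟨r.height, Or.inr hr.1, by rw [max_eq_right h]⟩
      · exact ⟨l.height, Or.inl hl.1, by rw [max_eq_left h]⟩
    · intro d hd
      simp only [leafDepths, List.mem_map, List.mem_append] at hd
      obtain ⟨e, he, rfl⟩ := hd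
      simp only [BinaryTree.height]
      rcases he with he | he
      · have := hl.2 e he; omega
      · have := hr.2 e he; omega

end Pool.Agent.Lib.MP_ce738d_pr
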