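import Pool.Agent.Lib.MP_ce738d_pr.Q1

open Finset Filter Topology

namespace Pool.Agent.Lib.MP_ce738d_pr

open BinaryTree

/-- expected height -/
noncomputable def HH (n : ℕ) : ℝ := fexp n fun t => (t.height : ℝ)

/-- expected maximum of the heights of two independent trees -/
noncomputable def MM (a b : ℕ) : ℝ :=
  fexp a fun s => fexp b fun t => max (s.height : ℝ) (t.height : ℝ)

lemma ELstar_eq (n : ℕ) (hn : 1 ≤ n) : ELstar n = HH n := by
  unfold ELstar HH
  rw [expect_eq_fexp n hn]

lemma fexp_one_add (n : ℕ) (hn : 1 ≤ n) (f : BinaryTree Unit → ℝ) :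
    fexp n (fun t => 1 + f t) = 1 + fexp n f := by
  rw [fexp_add, fexp_const n hn]

lemma fexp_sum {ι : Type*} (n : ℕ) (s : Finset ι) (f : ι → BinaryTree Unit → ℝ) :
    fexp n (fun t => ∑ i ∈ s, f i t) = ∑ i ∈ s, fexp n (f i) := by
  unfold fexp
  rw [Finset.sum_comm]
  apply sum_congr rfl
  intro t _
  rw [mul_sum]

lemma fexp_comm (a b : ℕ) (F : BinaryTree Unit → BinaryTree Unit → ℝ) :
    fexp a (fun s => fexp b (fun t => F s t)) = fexp b (fun t => fexp a (fun s => F s t)) := by
  unfold fexp
  simp only [mul_sum]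
  rw [Finset.sum_comm]
  apply sum_congr rfl
  intro t _
  apply sum_congr rfl
  intro s _
  ring

lemma MM_symm (a b : ℕ) : MM a b = MM b a := by
  unfold MM
  rw [fexp_comm]
  simp only [max_comm]

lemma height_node (l r : BinaryTree Unit) :
    ((node () l r).height : ℝ) = 1 + max (l.height : ℝ) (r.height : ℝ) := by
  simp only [height]
  push_cast
  ring

lemma HH_rec {m : ℕ} (hm : 2 ≤ m) : HH m = 1 + ∑ i ∈ Ico 1 m, splitProb m i * MM i (m - i) := by
  unfold HH
  rw [fexp_rec hm]
  have h0 : ∀ i ∈ Ico 1 m, splitProb m i *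
      fexp i (fun l => fexp (m - i) (fun r => ((node () l r).height : ℝ))) =
      splitProb m i + splitProb m i * MM i (m - i) := by
    intro i hi
    have hi' := mem_Ico.mp hi
    simp only [height_node]
    have h1 : ∀ l : BinaryTree Unit,
        fexp (m - i) (fun r => 1 + max (l.height : ℝ) (r.height : ℝ)) =
        1 + fexp (m - i) (fun r => max (l.height : ℝ) (r.height : ℝ)) :=
      fun l => fexp_one_add _ (by omega) _
    simp only [h1]
    rw [fexp_one_add i hi'.1]
    unfold MM
    ring
  rw [sum_congr rfl h0, sum_add_distrib, sum_splitProb_Ico hm]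

/-- Following the larger sub-clade gives a lower bound. -/
lemma fexp_greedy {a : ℕ} (ha : 2 ≤ a) (f g : BinaryTree Unit → ℝ)
    (h : ∀ l r : BinaryTree Unit, g l ≤ f (node () l r) ∧ g r ≤ f (node () l r)) :
    ∑ i ∈ Ico 1 a, splitProb a i * fexp (max i (a - i)) g ≤ fexp a f := by
  rw [fexp_rec ha]
  apply sum_le_sum
  intro i hi
  have hi' := mem_Ico.mp hi
  apply mul_le_mul_of_nonneg_left _ (splitProb_nonneg hi'.2.le)
  rcases le_total i (a - i) with hle | hle
  · rw [max_eq_right hle]
    have h1 : fexp (a - i) g = fexp i (fun _ => fexp (a - i) g) := (fexp_const i hi'.1 _).symm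
    rw [h1]
    apply fexp_mono i hi'.1
    intro l _
    apply fexp_mono (a - i) (by omega)
    intro r _
    exact (h l r).2
  · rw [max_eq_left hle]
    apply fexp_mono i hi'.1
    intro l _
    have h1 : g l = fexp (a - i) (fun _ => g l) := (fexp_const (a - i) (by omega) _).symm
    rw [h1]
    apply fexp_mono (a - i) (by omega)
    intro r _
    exact (h l r).1

lemma MM_ge {a b : ℕ} (ha : 2 ≤ a) (hb : 2 ≤ b) :
    1 + ∑ i ∈ Ico 1 a, ∑ j ∈ Ico 1 b, splitProb a i * splitProb b j *
      MM (max i (a - i)) (max j (b - j)) ≤ MM a b := by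
  set g : BinaryTree Unit → ℝ := fun s => ∑ j ∈ Ico 1 b, splitProb b j *
    fexp (max j (b - j)) (fun t => 1 + max (s.height : ℝ) (t.height : ℝ)) with hg
  have key : ∀ (s l r : BinaryTree Unit), (s = l ∨ s = r) →
      g s ≤ fexp b (fun t => max (((node () l r).height : ℝ)) (t.height : ℝ)) := by
    intro s l r hs
    rw [hg]
    apply fexp_greedy hb
    intro l' r'
    rw [height_node, height_node]
    have h1 : (s.height : ℝ) ≤ max (l.height : ℝ) (r.height : ℝ) := by
      rcases hs with rfl | rfl
      · exact le_max_left _ _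
      · exact le_max_right _ _
    have h2 : (l'.height : ℝ) ≤ max (l'.height : ℝ) (r'.height : ℝ) := le_max_left _ _
    have h3 : (r'.height : ℝ) ≤ max (l'.height : ℝ) (r'.height : ℝ) := le_max_right _ _
    have h4 := le_max_left (1 + max (l.height : ℝ) (r.height : ℝ))
      (1 + max (l'.height : ℝ) (r'.height : ℝ))
    have h5 := le_max_right (1 + max (l.height : ℝ) (r.height : ℝ))
      (1 + max (l'.height : ℝ) (r'.height : ℝ))
    constructor
    · have : max (s.height : ℝ) (l'.height : ℝ) ≤
          max (1 + max (l.height : ℝ) (r.height : ℝ))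
            (1 + max (l'.height : ℝ) (r'.height : ℝ)) - 1 := by
        apply max_le <;> linarith
      linarith
    · have : max (s.height : ℝ) (r'.height : ℝ) ≤
          max (1 + max (l.height : ℝ) (r.height : ℝ))
            (1 + max (l'.height : ℝ) (r'.height : ℝ)) - 1 := by
        apply max_le <;> linarith
      linarith
  have h1 := fexp_greedy ha
    (fun s => fexp b (fun t => max (s.height : ℝ) (t.height : ℝ))) g
    (fun l r => ⟨key l l r (Or.inl rfl), key r l r (Or.inr rfl)⟩)
  refine le_trans (le_of_eq ?_) h1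
  have h2 : ∀ i ∈ Ico 1 a, splitProb a i * fexp (max i (a - i)) g =
      splitProb a i + ∑ j ∈ Ico 1 b, splitProb a i * splitProb b j *
        MM (max i (a - i)) (max j (b - j)) := by
    intro i hi
    have hi' := mem_Ico.mp hi
    rw [hg, fexp_sum]
    have h3 : ∀ j ∈ Ico 1 b, fexp (max i (a - i)) (fun s => splitProb b j *
        fexp (max j (b - j)) (fun t => 1 + max (s.height : ℝ) (t.height : ℝ))) =
        splitProb b j + splitProb b j * MM (max i (a - i)) (max j (b - j)) := by
      intro j hj
      have hj' := mem_Ico.mp hj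
      rw [fexp_const_mul]
      have h4 : ∀ s : BinaryTree Unit, fexp (max j (b - j))
          (fun t => 1 + max (s.height : ℝ) (t.height : ℝ)) =
          1 + fexp (max j (b - j)) (fun t => max (s.height : ℝ) (t.height : ℝ)) :=
        fun s => fexp_one_add _ (by omega) _
      simp only [h4]
      rw [fexp_one_add _ (by omega)]
      unfold MM
      ring
    rw [sum_congr rfl h3, sum_add_distrib, sum_splitProb_Ico hb, mul_add, mul_one, mul_sum]
    congr 1
    apply sum_congr rfl
    intro j _
    ring
  rw [sum_congr rfl h2, sum_add_distrib, sum_splitProb_Ico ha]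

lemma MM_ge_left {a b : ℕ} (ha : 1 ≤ a) (hb : 1 ≤ b) : HH a ≤ MM a b := by
  unfold HH MM
  apply fexp_mono a ha
  intro s _
  have h1 : (s.height : ℝ) = fexp b (fun _ => (s.height : ℝ)) := (fexp_const b hb _).symm
  rw [h1]
  apply fexp_mono b hb
  intro t _
  rw [← h1]
  exact le_max_left _ _

lemma MM_ge_right {a b : ℕ} (ha : 1 ≤ a) (hb : 1 ≤ b) : HH b ≤ MM a b := by
  rw [MM_symm]
  exact MM_ge_left hb ha

lemma HH_nonneg {n : ℕ} (hn : 1 ≤ n) : 0 ≤ HH n := by
  have h1 : (0 : ℝ) = fexp n (fun _ => (0 : ℝ)) := (fexp_const n hn _).symm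
  rw [h1]
  apply fexp_mono n hn
  intro t _
  positivity

/-! ### Upper bound for the height -/

lemma sum_split_sq {m : ℕ} (hm : 2 ≤ m) :
    2 * ∑ i ∈ Ico 1 m, splitProb m i * (i : ℝ) ^ 2 = (m : ℝ) ^ 2 * (1 - (m - 1) / (m * hh m)) := by
  have hH := hh_pos hm
  have hm0 : (0 : ℝ) < m := by exact_mod_cast (by omega : 0 < m)
  have h1 : 2 * ∑ i ∈ Ico 1 m, splitProb m i * (i : ℝ) ^ 2 =
      ∑ i ∈ Ico 1 m, splitProb m i * ((i : ℝ) ^ 2 + ((m : ℝ) - i) ^ 2) := by
    have h2 := sum_Ico_reflect' m (fun i => splitProb m i * (i : ℝ) ^ 2)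
    have h3 : ∑ i ∈ Ico 1 m, splitProb m (m - i) * ((m - i : ℕ) : ℝ) ^ 2 =
        ∑ i ∈ Ico 1 m, splitProb m i * ((m : ℝ) - i) ^ 2 := by
      apply sum_congr rfl
      intro i hi
      have hi' := mem_Ico.mp hi
      rw [splitProb_symm hi'.2.le, Nat.cast_sub hi'.2.le]
    rw [h3] at h2
    rw [two_mul]
    nth_rewrite 2 [← h2]
    rw [← sum_add_distrib]
    apply sum_congr rfl
    intro i _
    ring
  rw [h1]
  have h4 : ∀ i ∈ Ico 1 m, splitProb m i * ((i : ℝ) ^ 2 + ((m : ℝ) - i) ^ 2) =
      splitProb m i * (m : ℝ) ^ 2 - (m : ℝ) / hh m := by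
    intro i hi
    have hi' := mem_Ico.mp hi
    have h0 : (0 : ℝ) < i := by exact_mod_cast hi'.1
    have h1 : (i : ℝ) < m := by exact_mod_cast hi'.2
    have h2 : (0 : ℝ) < (m : ℝ) - i := by linarith
    unfold splitProb
    change (m : ℝ) / (2 * hh m * i * (m - i)) * _ = (m : ℝ) / (2 * hh m * i * (m - i)) * _ - _
    field_simp
    ring
  rw [sum_congr rfl h4, sum_sub_distrib, ← sum_mul, sum_splitProb_Ico hm, sum_const, Nat.card_Ico,
    nsmul_eq_mul, Nat.cast_sub (by omega : 1 ≤ m)]
  push_cast
  field_simp

lemma exp_height_bound (N : ℕ) (hN : 2 ≤ N) (n : ℕ) (hn : 1 ≤ n) (hnN : n ≤ N) :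
    fexp n (fun t => (1 + 1 / (2 * hh N)) ^ t.height) ≤ (n : ℝ) ^ 2 := by
  have hHN := hh_pos hN
  set lam : ℝ := 1 + 1 / (2 * hh N) with hlam
  have hlam1 : 1 ≤ lam := by
    rw [hlam]
    have : 0 ≤ 1 / (2 * hh N) := by positivity
    linarith
  induction n using Nat.strong_induction_on with
  | _ n ih =>
    rcases Nat.lt_or_ge n 2 with h | h
    · have : n = 1 := by omega
      subst this
      rw [fexp_one]
      simp
    · have hHn := hh_pos h
      have hn0 : (0 : ℝ) < n := by exact_mod_cast (by omega : 0 < n)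
      rw [fexp_rec h]
      have key : ∀ i ∈ Ico 1 n, splitProb n i * fexp i (fun l => fexp (n - i) (fun r =>
          lam ^ (node () l r).height)) ≤
          lam * (splitProb n i * (i : ℝ) ^ 2 + splitProb n (n - i) * ((n - i : ℕ) : ℝ) ^ 2) := by
        intro i hi
        have hi' := mem_Ico.mp hi
        have h1 : fexp i (fun l => fexp (n - i) (fun r => lam ^ (node () l r).height)) ≤
            lam * (fexp i (fun l => lam ^ l.height) + fexp (n - i) (fun r => lam ^ r.height)) := by
          have h2 : fexp i (fun l => fexp (n - i) (fun r => lam ^ (node () l r).height)) ≤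
              fexp i (fun l => fexp (n - i) (fun r =>
                lam * (lam ^ l.height + lam ^ r.height))) := by
            apply fexp_mono i hi'.1
            intro l _
            apply fexp_mono (n - i) (by omega)
            intro r _
            simp only [height]
            rw [pow_succ, mul_comm]
            apply mul_le_mul_of_nonneg_left _ (by linarith)
            rcases le_total l.height r.height with hle | hle
            · rw [max_eq_right hle]
              have : 0 ≤ lam ^ l.height := by positivity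
              linarith
            · rw [max_eq_left hle]
              have : 0 ≤ lam ^ r.height := by positivity
              linarith
          refine h2.trans (le_of_eq ?_)
          have h3 : ∀ l : BinaryTree Unit, fexp (n - i) (fun r =>
                lam * (lam ^ l.height + lam ^ r.height)) =
              lam * fexp (n - i) (fun r => lam ^ r.height) + lam * lam ^ l.height := by
            intro l
            rw [fexp_const_mul, fexp_add, fexp_const (n - i) (by omega)]
            ring
          simp only [h3]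
          rw [fexp_add, fexp_const i hi'.1, fexp_const_mul]
          ring
        have h4 := ih i hi'.2 hi'.1 (by omega)
        have h5 := ih (n - i) (by omega) (by omega) (by omega)
        have h6 := splitProb_nonneg (m := n) (i := i) hi'.2.le
        rw [splitProb_symm hi'.2.le]
        calc splitProb n i * fexp i (fun l => fexp (n - i) (fun r =>
              lam ^ (node () l r).height))
            ≤ splitProb n i * (lam * (fexp i (fun l => lam ^ l.height) +
                fexp (n - i) (fun r => lam ^ r.height))) := mul_le_mul_of_nonneg_left h1 h6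
          _ ≤ splitProb n i * (lam * ((i : ℝ) ^ 2 + ((n - i : ℕ) : ℝ) ^ 2)) := by
              apply mul_le_mul_of_nonneg_left _ h6
              apply mul_le_mul_of_nonneg_left _ (by linarith)
              linarith
          _ = _ := by ring
      refine (sum_le_sum key).trans ?_
      rw [← mul_sum, sum_add_distrib]
      have h7 := sum_Ico_reflect' n (fun i => splitProb n i * (i : ℝ) ^ 2)
      rw [h7, ← two_mul, sum_split_sq h]
      have h8 : hh n ≤ hh N := by
        rw [hh_eq n (by omega), hh_eq N (by omega)]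
        apply sum_le_sum_of_subset_of_nonneg
        · intro i hi
          simp only [mem_Ico] at hi ⊢
          omega
        · intro i _ _
          positivity
      have h9 : lam * (1 - ((n : ℝ) - 1) / (n * hh n)) ≤ 1 := by
        have h10 : 1 / (2 * hh N) ≤ ((n : ℝ) - 1) / (n * hh n) := by
          rw [div_le_div_iff₀ (by positivity) (by positivity)]
          have h11 : (2 : ℝ) ≤ n := by exact_mod_cast h
          nlinarith
        have h12 : 1 - ((n : ℝ) - 1) / (n * hh n) ≤ 1 - 1 / (2 * hh N) := by linarith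
        calc lam * (1 - ((n : ℝ) - 1) / (n * hh n)) ≤ lam * (1 - 1 / (2 * hh N)) :=
              mul_le_mul_of_nonneg_left h12 (by linarith)
          _ = 1 - (1 / (2 * hh N)) ^ 2 := by rw [hlam]; ring
          _ ≤ 1 := by
              have := sq_nonneg (1 / (2 * hh N))
              linarith
      calc lam * ((n : ℝ) ^ 2 * (1 - ((n : ℝ) - 1) / (n * hh n)))
          = (n : ℝ) ^ 2 * (lam * (1 - ((n : ℝ) - 1) / (n * hh n))) := by ring
        _ ≤ (n : ℝ) ^ 2 * 1 := mul_le_mul_of_nonneg_left h9 (by positivity)
        _ = (n : ℝ) ^ 2 := mul_one _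

theorem HH_upper (N : ℕ) (hN : 2 ≤ N) :
    HH N ≤ 2 * Real.log N * (3 + 2 * Real.log N) := by
  have hHN := hh_pos hN
  have hN0 : (0 : ℝ) < N := by exact_mod_cast (by omega : 0 < N)
  set lam : ℝ := 1 + 1 / (2 * hh N) with hlam
  have hlam1 : 1 < lam := by
    rw [hlam]
    have : 0 < 1 / (2 * hh N) := by positivity
    linarith
  have hloglam : 0 < Real.log lam := Real.log_pos hlam1
  set k₀ : ℝ := 2 * Real.log N / Real.log lam with hk
  have h1 := exp_height_bound N hN N (by omega) le_rfl
  have h2 : fexp N (fun t => (N : ℝ) ^ 2 * (1 + ((t.height : ℝ) - k₀) * Real.log lam)) ≤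
      fexp N (fun t => lam ^ t.height) := by
    apply fexp_mono N (by omega)
    intro t _
    have h3 : lam ^ t.height = (N : ℝ) ^ 2 * Real.exp (((t.height : ℝ) - k₀) * Real.log lam) := by
      rw [← Real.rpow_natCast lam, Real.rpow_def_of_pos (by linarith)]
      have h4 : (N : ℝ) ^ 2 = Real.exp (2 * Real.log N) := by
        rw [two_mul, Real.exp_add, Real.exp_log hN0]
        ring
      rw [h4, ← Real.exp_add]
      congr 1
      rw [hk]
      field_simp
      ring
    rw [h3]
    apply mul_le_mul_of_nonneg_left _ (by positivity)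
    have := Real.add_one_le_exp (((t.height : ℝ) - k₀) * Real.log lam)
    linarith
  have h5 : fexp N (fun t => (N : ℝ) ^ 2 * (1 + ((t.height : ℝ) - k₀) * Real.log lam)) =
      (N : ℝ) ^ 2 * (1 + (HH N - k₀) * Real.log lam) := by
    rw [fexp_const_mul]
    congr 1
    have : (fun t : BinaryTree Unit => 1 + ((t.height : ℝ) - k₀) * Real.log lam) =
        fun t => (1 - k₀ * Real.log lam) + Real.log lam * (t.height : ℝ) := by
      funext t; ring
    rw [this, fexp_add, fexp_const N (by omega), fexp_const_mul]
    unfold HH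
    ring
  rw [h5] at h2
  have h6 : (N : ℝ) ^ 2 * (1 + (HH N - k₀) * Real.log lam) ≤ (N : ℝ) ^ 2 * 1 := by
    rw [mul_one]
    exact h2.trans h1
  have h7 : 1 + (HH N - k₀) * Real.log lam ≤ 1 := le_of_mul_le_mul_left h6 (by positivity)
  have h8 : HH N ≤ k₀ := by
    by_contra hcon
    push Not at hcon
    have : 0 < (HH N - k₀) * Real.log lam := mul_pos (by linarith) hloglam
    linarith
  -- bound k₀
  have h9 : 1 / (1 + 2 * hh N) ≤ Real.log lam := by
    have h10 := Real.one_sub_inv_le_log_of_pos (show 0 < lam by linarith)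
    have h11 : 1 - lam⁻¹ = 1 / (1 + 2 * hh N) := by
      rw [hlam]
      field_simp
      ring
    linarith
  have hlogN : 0 ≤ Real.log N := Real.log_natCast_nonneg N
  have h12 : k₀ ≤ 2 * Real.log N * (1 + 2 * hh N) := by
    rw [hk, div_le_iff₀ hloglam]
    have h13 : 1 ≤ (1 + 2 * hh N) * Real.log lam := by
      rw [div_le_iff₀ (by positivity)] at h9
      linarith
    have h14 : 2 * Real.log N * 1 ≤ 2 * Real.log N * ((1 + 2 * hh N) * Real.log lam) :=
      mul_le_mul_of_nonneg_left h13 (by positivity)
    linarith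
  have h15 := hh_le hN
  have h16 : 2 * Real.log N * (1 + 2 * hh N) ≤ 2 * Real.log N * (3 + 2 * Real.log N) := by
    apply mul_le_mul_of_nonneg_left _ (by positivity)
    linarith
  linarith

end Pool.Agent.Lib.MP_ce738d_pr
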