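import Pool.Agent.Lib.MP_ce738d_pr.Rec

open Finset Filter Topology MeasureTheory

namespace Pool.Agent.Lib.MP_ce738d_pr

/-- `ψ(t) = log(1+t)/t` -/
noncomputable def psi (t : ℝ) : ℝ := Real.log (1 + t) / t

lemma psi_nonneg {t : ℝ} (ht : 0 ≤ t) : 0 ≤ psi t :=
  div_nonneg (Real.log_nonneg (by linarith)) ht

lemma psi_le_one {t : ℝ} (ht : 0 ≤ t) : psi t ≤ 1 := by
  unfold psi
  rcases ht.eq_or_lt with h | h
  · rw [← h]; simp
  · rw [div_le_one h]
    have := Real.log_le_sub_one_of_pos (show (0 : ℝ) < 1 + t by linarith)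
    linarith

lemma psi_antitone {s t : ℝ} (hs : 0 < s) (hst : s ≤ t) : psi t ≤ psi s := by
  unfold psi
  have ht : 0 < t := lt_of_lt_of_le hs hst
  -- concavity of log: slope from 1
  have h := strictConcaveOn_log_Ioi.concaveOn
  rcases hst.eq_or_lt with h' | h'
  · rw [h']
  · have := h.slope_anti_adjacent (x := 1) (y := 1 + s) (z := 1 + t) (by simp)
      (by simp; linarith) (by linarith) (by linarith)
    rw [Real.log_one, sub_zero] at this
    have h1 : 1 + t - (1 + s) = t - s := by ring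
    have h2 : 1 + s - 1 = s := by ring
    rw [h1, h2] at this
    rw [div_le_div_iff₀ (by linarith) hs] at this
    rw [div_le_div_iff₀ ht hs]
    nlinarith

lemma psi_measurable : Measurable psi := by
  unfold psi
  exact (Real.measurable_log.comp (measurable_const.add measurable_id)).div measurable_id

lemma psi_intervalIntegrable {a b : ℝ} (ha : 0 ≤ a) (hb : 0 ≤ b) :
    IntervalIntegrable psi volume a b := by
  rw [intervalIntegrable_iff]
  apply Measure.integrableOn_of_bounded (M := 1)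
  · simp
  · exact psi_measurable.aestronglyMeasurable
  · rw [ae_restrict_iff' measurableSet_uIoc]
    filter_upwards with x hx
    have hx0 : 0 ≤ x := by
      rw [Set.uIoc, Set.mem_Ioc] at hx
      exact le_trans (le_min ha hb) hx.1.le
    rw [Real.norm_of_nonneg (psi_nonneg hx0)]
    exact psi_le_one hx0

/-- `Ψ(t) = ∫_0^t ψ` -/
noncomputable def Psi (t : ℝ) : ℝ := ∫ x in (0 : ℝ)..t, psi x

lemma Psi_sub {s t : ℝ} (hs : 0 ≤ s) (ht : 0 ≤ t) : Psi t - Psi s = ∫ x in s..t, psi x := by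
  unfold Psi
  rw [intervalIntegral.integral_interval_sub_left (psi_intervalIntegrable le_rfl ht)
    (psi_intervalIntegrable le_rfl hs)]

lemma Psi_diff_ge {s t : ℝ} (hs : 0 ≤ s) (hst : s ≤ t) :
    psi t * (t - s) ≤ Psi t - Psi s := by
  have ht : 0 ≤ t := hs.trans hst
  rw [Psi_sub hs ht]
  rcases hst.eq_or_lt with h | h
  · rw [h]; simp
  have h1 : ∫ _ in s..t, psi t = psi t * (t - s) := by
    rw [intervalIntegral.integral_const, smul_eq_mul, mul_comm]
  rw [← h1]
  apply intervalIntegral.integral_mono_on_of_le_Ioo hst (by simp) (psi_intervalIntegrable hs ht)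
  intro x hx
  exact psi_antitone (lt_of_le_of_lt hs hx.1) hx.2.le

lemma Psi_diff_le {s t : ℝ} (hs : 0 < s) (hst : s ≤ t) :
    Psi t - Psi s ≤ psi s * (t - s) := by
  have ht : 0 ≤ t := hs.le.trans hst
  rw [Psi_sub hs.le ht]
  have h1 : ∫ _ in s..t, psi s = psi s * (t - s) := by
    rw [intervalIntegral.integral_const, smul_eq_mul, mul_comm]
  rw [← h1]
  apply intervalIntegral.integral_mono_on_of_le_Ioo hst (psi_intervalIntegrable hs.le ht) (by simp)
  intro x hx
  exact psi_antitone hs hx.1.le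

lemma Psi_zero : Psi 0 = 0 := by simp [Psi]

lemma Psi_mono {s t : ℝ} (hs : 0 ≤ s) (hst : s ≤ t) : Psi s ≤ Psi t := by
  have h := Psi_diff_ge hs hst
  have h2 : 0 ≤ psi t * (t - s) := mul_nonneg (psi_nonneg (hs.trans hst)) (by linarith)
  linarith

lemma Psi_le {t : ℝ} (ht : 0 ≤ t) : Psi t ≤ t := by
  have h : ∫ x in (0 : ℝ)..t, psi x ≤ ∫ x in (0 : ℝ)..t, (1 : ℝ) := by
    apply intervalIntegral.integral_mono_on ht (psi_intervalIntegrable le_rfl ht) (by simp)
    intro x hx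
    exact psi_le_one hx.1
  simpa [Psi] using h

/-- `∑ (-1)^n / (n+1)^2 = π²/12` -/
lemma hasSum_eta : HasSum (fun n : ℕ => (-1 : ℝ) ^ n / ((n : ℝ) + 1) ^ 2) (Real.pi ^ 2 / 12) := by
  have hz : HasSum (fun n : ℕ => 1 / ((n : ℝ) + 1) ^ 2) (Real.pi ^ 2 / 6) := by
    have := (hasSum_nat_add_iff' (f := fun n : ℕ => 1 / (n : ℝ) ^ 2) 1).mpr hasSum_zeta_two
    simpa using this
  -- odd part
  have hodd : HasSum (fun k : ℕ => 1 / (((2 * k + 1 : ℕ) : ℝ) + 1) ^ 2) (Real.pi ^ 2 / 24) := by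
    have := hz.mul_left (1 / 4)
    have h2 : (1 : ℝ) / 4 * (Real.pi ^ 2 / 6) = Real.pi ^ 2 / 24 := by ring
    rw [h2] at this
    refine this.congr_fun ?_
    intro k
    push_cast
    field_simp
    ring
  have heven : HasSum (fun k : ℕ => 1 / (((2 * k : ℕ) : ℝ) + 1) ^ 2) (Real.pi ^ 2 / 8) := by
    have hs : Summable (fun k : ℕ => 1 / (((2 * k : ℕ) : ℝ) + 1) ^ 2) :=
      hz.summable.comp_injective (i := fun k : ℕ => 2 * k) (fun a b h => by simpa using h)
    have h1 := HasSum.even_add_odd (f := fun n : ℕ => 1 / ((n : ℝ) + 1) ^ 2) hs.hasSum hodd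
    have h2 := h1.unique hz
    have h3 := hs.hasSum
    have h4 : (∑' k : ℕ, 1 / (((2 * k : ℕ) : ℝ) + 1) ^ 2) = Real.pi ^ 2 / 8 := by linarith
    rwa [h4] at h3
  have he : HasSum (fun k : ℕ => (-1 : ℝ) ^ (2 * k) / (((2 * k : ℕ) : ℝ) + 1) ^ 2)
      (Real.pi ^ 2 / 8) := by
    refine heven.congr_fun ?_
    intro k
    simp
  have ho : HasSum (fun k : ℕ => (-1 : ℝ) ^ (2 * k + 1) / (((2 * k + 1 : ℕ) : ℝ) + 1) ^ 2)
      (-(Real.pi ^ 2 / 24)) := by
    refine hodd.neg.congr_fun ?_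
    intro k
    rw [pow_succ]
    simp
    ring
  have := he.even_add_odd (f := fun n : ℕ => (-1 : ℝ) ^ n / ((n : ℝ) + 1) ^ 2) ho
  have h5 : Real.pi ^ 2 / 8 + -(Real.pi ^ 2 / 24) = Real.pi ^ 2 / 12 := by ring
  rwa [h5] at this

lemma Psi_one : Psi 1 = Real.pi ^ 2 / 12 := by
  have hterm : ∀ n : ℕ, ∫ t in (0 : ℝ)..1, (-1 : ℝ) ^ n * t ^ n / ((n : ℝ) + 1) =
      (-1 : ℝ) ^ n / ((n : ℝ) + 1) ^ 2 := by
    intro n
    rw [intervalIntegral.integral_div, intervalIntegral.integral_const_mul, integral_pow]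
    simp
    field_simp
  have hnorm : ∀ n : ℕ, ∫ t in (0 : ℝ)..1, ‖(-1 : ℝ) ^ n * t ^ n / ((n : ℝ) + 1)‖ =
      1 / ((n : ℝ) + 1) ^ 2 := by
    intro n
    have : ∫ t in (0 : ℝ)..1, ‖(-1 : ℝ) ^ n * t ^ n / ((n : ℝ) + 1)‖ =
        ∫ t in (0 : ℝ)..1, t ^ n / ((n : ℝ) + 1) := by
      apply intervalIntegral.integral_congr
      intro t ht
      rw [Set.uIcc_of_le zero_le_one] at ht
      have ht0 : 0 ≤ t := ht.1
      have hn : (0 : ℝ) < (n : ℝ) + 1 := by positivity
      simp only [norm_div, norm_mul, norm_pow, norm_neg, norm_one, one_pow, one_mul]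
      rw [Real.norm_of_nonneg ht0, Real.norm_of_nonneg hn.le]
    rw [this, intervalIntegral.integral_div, integral_pow]
    simp
    field_simp
  have hz : Summable (fun n : ℕ => 1 / ((n : ℝ) + 1) ^ 2) := by
    have := (hasSum_nat_add_iff' (f := fun n : ℕ => 1 / (n : ℝ) ^ 2) 1).mpr hasSum_zeta_two
    exact (by simpa using this.summable)
  have hint : ∀ n : ℕ, Integrable (fun t : ℝ => (-1 : ℝ) ^ n * t ^ n / ((n : ℝ) + 1))
      (volume.restrict (Set.Ioc 0 1)) := by
    intro n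
    have : Continuous (fun t : ℝ => (-1 : ℝ) ^ n * t ^ n / ((n : ℝ) + 1)) := by fun_prop
    exact (this.integrableOn_Icc (a := 0) (b := 1)).mono_set Set.Ioc_subset_Icc_self
  have hsum : Summable fun n : ℕ => ∫ t : ℝ in Set.Ioc 0 1,
      ‖(-1 : ℝ) ^ n * t ^ n / ((n : ℝ) + 1)‖ := by
    refine hz.congr ?_
    intro n
    rw [← hnorm n, intervalIntegral.integral_of_le zero_le_one]
  have key := hasSum_integral_of_summable_integral_norm hint hsum
  have h1 : (∫ t : ℝ in Set.Ioc 0 1, ∑' n : ℕ, (-1 : ℝ) ^ n * t ^ n / ((n : ℝ) + 1)) = Psi 1 := by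
    unfold Psi
    rw [intervalIntegral.integral_of_le zero_le_one]
    apply setIntegral_congr_ae measurableSet_Ioc
    have hne : ∀ᵐ t : ℝ ∂volume, t ≠ 1 := by
      rw [ae_iff]
      simp
    filter_upwards [hne] with t ht1 ht
    have ht0 : 0 < t := ht.1
    have htlt : t < 1 := lt_of_le_of_ne ht.2 ht1
    have habs : |(-t)| < 1 := by
      rw [abs_neg, abs_of_pos ht0]
      exact htlt
    have hs := (Real.hasSum_pow_div_log_of_abs_lt_one habs).mul_left (-1 / t)
    have h2 : -1 / t * -Real.log (1 - -t) = psi t := by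
      unfold psi
      rw [sub_neg_eq_add]
      field_simp
    rw [h2] at hs
    have h3 : HasSum (fun n : ℕ => (-1 : ℝ) ^ n * t ^ n / ((n : ℝ) + 1)) (psi t) := by
      refine hs.congr_fun ?_
      intro n
      rw [neg_pow t (n + 1), pow_succ, pow_succ]
      field_simp
    exact h3.tsum_eq
  rw [h1] at key
  have h2 : HasSum (fun n : ℕ => (-1 : ℝ) ^ n / ((n : ℝ) + 1) ^ 2) (Psi 1) := by
    refine key.congr_fun ?_
    intro n
    rw [← hterm n, intervalIntegral.integral_of_le zero_le_one]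
  exact h2.unique hasSum_eta

/-- `t_j = (m - j)/j` -/
noncomputable def tt (m j : ℕ) : ℝ := ((m : ℝ) - j) / j

/-- weight -/
noncomputable def ww (m j : ℕ) : ℝ := (m : ℝ) / (j * ((m : ℝ) - j)) * Real.log ((m : ℝ) / j)

lemma ww_eq {m j : ℕ} (hj : 1 ≤ j) (hjm : j < m) : ww m j = psi (tt m j) * ((m : ℝ) / (j : ℝ) ^ 2) := by
  have h1 : (0 : ℝ) < j := by exact_mod_cast hj
  have h2 : (j : ℝ) < m := by exact_mod_cast hjm
  have h3 : (0 : ℝ) < (m : ℝ) - j := by linarith
  unfold ww psi tt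
  have h4 : 1 + ((m : ℝ) - j) / j = (m : ℝ) / j := by field_simp; ring
  rw [h4]
  field_simp

lemma tt_nonneg {m j : ℕ} (hj : 1 ≤ j) (hjm : j ≤ m) : 0 ≤ tt m j := by
  have h1 : (0 : ℝ) < j := by exact_mod_cast hj
  have h2 : (j : ℝ) ≤ m := by exact_mod_cast hjm
  unfold tt
  apply div_nonneg _ h1.le
  linarith

lemma tt_pos {m j : ℕ} (hj : 1 ≤ j) (hjm : j < m) : 0 < tt m j := by
  have h1 : (0 : ℝ) < j := by exact_mod_cast hj
  have h2 : (j : ℝ) < m := by exact_mod_cast hjm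
  unfold tt
  apply div_pos _ h1
  linarith

lemma tt_sub {m j : ℕ} (hj : 1 ≤ j) : tt m j - tt m (j + 1) = (m : ℝ) / (j * (j + 1)) := by
  have h1 : (0 : ℝ) < j := by exact_mod_cast hj
  unfold tt
  push_cast
  field_simp
  ring

lemma sum_telescope_upper (m J : ℕ) (hJ : 1 ≤ J) (hJm : J ≤ m) (h2J : m ≤ 2 * J) :
    ∑ j ∈ Ico J m, ww m j ≤ (1 + 2 / m) * (Psi (tt m J)) := by
  have key : ∀ j ∈ Ico J m, ww m j ≤ (1 + 2 / m) * (Psi (tt m j) - Psi (tt m (j + 1))) := by
    intro j hj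
    have hj' := mem_Ico.mp hj
    have hj1 : 1 ≤ j := by omega
    have h1 : (0 : ℝ) < j := by exact_mod_cast hj1
    have h2 : (j : ℝ) < m := by exact_mod_cast hj'.2
    have hm0 : (0 : ℝ) < m := by linarith
    rw [ww_eq hj1 hj'.2]
    have h3 := Psi_diff_ge (tt_nonneg (m := m) (j := j + 1) (by omega) (by omega))
      (show tt m (j + 1) ≤ tt m j by
        have := tt_sub (m := m) hj1
        have h4 : 0 ≤ (m : ℝ) / (j * (j + 1)) := by positivity
        linarith)
    rw [tt_sub hj1] at h3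
    have h5 : (m : ℝ) ≤ 2 * j := by
      have : (m : ℝ) ≤ 2 * J := by exact_mod_cast h2J
      have h6 : (J : ℝ) ≤ j := by exact_mod_cast hj'.1
      linarith
    have h6 : (m : ℝ) / (j : ℝ) ^ 2 ≤ (1 + 2 / m) * ((m : ℝ) / (j * (j + 1))) := by
      have : (1 + 2 / (m : ℝ)) * ((m : ℝ) / (j * (j + 1))) = ((m : ℝ) + 2) / (j * (j + 1)) := by
        field_simp
      rw [this, div_le_div_iff₀ (by positivity) (by positivity)]
      nlinarith
    have h7 : 0 ≤ psi (tt m j) := psi_nonneg (tt_nonneg hj1 hj'.2.le)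
    calc psi (tt m j) * ((m : ℝ) / (j : ℝ) ^ 2)
        ≤ psi (tt m j) * ((1 + 2 / m) * ((m : ℝ) / (j * (j + 1)))) :=
          mul_le_mul_of_nonneg_left h6 h7
      _ = (1 + 2 / m) * (psi (tt m j) * ((m : ℝ) / (j * (j + 1)))) := by ring
      _ ≤ _ := by
          apply mul_le_mul_of_nonneg_left h3
          positivity
  have htel : ∑ j ∈ Ico J m, (Psi (tt m j) - Psi (tt m (j + 1))) = Psi (tt m J) - Psi (tt m m) := by
    rw [Finset.sum_Ico_eq_sum_range]
    have := Finset.sum_range_sub' (fun i => Psi (tt m (J + i))) (m - J)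
    simp only [add_zero] at this
    rw [show J + (m - J) = m by omega] at this
    rw [← this]
    apply sum_congr rfl
    intro i _
    rw [add_assoc]
  calc ∑ j ∈ Ico J m, ww m j ≤ ∑ j ∈ Ico J m, (1 + 2 / m) * (Psi (tt m j) - Psi (tt m (j + 1))) :=
        sum_le_sum key
    _ = (1 + 2 / m) * (Psi (tt m J) - Psi (tt m m)) := by rw [← mul_sum, htel]
    _ = (1 + 2 / m) * (Psi (tt m J)) := by
        have : tt m m = 0 := by simp [tt]
        rw [this, Psi_zero, sub_zero]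

lemma sum_telescope_lower (m J : ℕ) (hJ : 2 ≤ J) (hJm : J < m) (h2J : m ≤ 2 * J) :
    (1 - 2 / m) * (Psi (tt m (J - 1)) - Psi (tt m (m - 1))) ≤ ∑ j ∈ Ico J m, ww m j := by
  have key : ∀ j ∈ Ico J m, (1 - 2 / m) * (Psi (tt m (j - 1)) - Psi (tt m j)) ≤ ww m j := by
    intro j hj
    have hj' := mem_Ico.mp hj
    obtain ⟨i, rfl⟩ : ∃ i, j = i + 1 := ⟨j - 1, by omega⟩
    have hi1 : 1 ≤ i := by omega
    have h1 : (0 : ℝ) < i := by exact_mod_cast hi1
    have h2 : ((i : ℝ) + 1) < m := by exact_mod_cast hj'.2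
    have hm0 : (0 : ℝ) < m := by linarith
    rw [ww_eq (by omega) hj'.2]
    simp only [Nat.add_sub_cancel]
    have h3 := Psi_diff_le (tt_pos (m := m) (j := i + 1) (by omega) (by omega))
      (show tt m (i + 1) ≤ tt m i by
        have := tt_sub (m := m) hi1
        have h4 : 0 ≤ (m : ℝ) / (i * (i + 1)) := by positivity
        linarith)
    rw [tt_sub hi1] at h3
    have h5 : (m : ℝ) ≤ 2 * (i + 1) := by
      have : (m : ℝ) ≤ 2 * J := by exact_mod_cast h2J
      have h6 : (J : ℝ) ≤ i + 1 := by exact_mod_cast hj'.1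
      linarith
    have h6 : (1 - 2 / m) * ((m : ℝ) / (i * (i + 1))) ≤ (m : ℝ) / ((i + 1 : ℕ) : ℝ) ^ 2 := by
      have : (1 - 2 / (m : ℝ)) * ((m : ℝ) / (i * (i + 1))) = ((m : ℝ) - 2) / (i * (i + 1)) := by
        field_simp
      rw [this, div_le_div_iff₀ (by positivity) (by positivity)]
      push_cast
      nlinarith
    have h7 : 0 ≤ psi (tt m (i + 1)) := psi_nonneg (tt_nonneg (by omega) hj'.2.le)
    have h8 : 0 ≤ 1 - 2 / (m : ℝ) := by
      rw [sub_nonneg, div_le_one hm0]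
      linarith [show (1 : ℝ) ≤ i by exact_mod_cast hi1]
    calc (1 - 2 / m) * (Psi (tt m i) - Psi (tt m (i + 1)))
        ≤ (1 - 2 / m) * (psi (tt m (i + 1)) * ((m : ℝ) / (i * (i + 1)))) :=
          mul_le_mul_of_nonneg_left h3 h8
      _ = psi (tt m (i + 1)) * ((1 - 2 / m) * ((m : ℝ) / (i * (i + 1)))) := by ring
      _ ≤ _ := mul_le_mul_of_nonneg_left h6 h7
  have htel : ∑ j ∈ Ico J m, (Psi (tt m (j - 1)) - Psi (tt m j)) =
      Psi (tt m (J - 1)) - Psi (tt m (m - 1)) := by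
    rw [Finset.sum_Ico_eq_sum_range]
    have := Finset.sum_range_sub' (fun i => Psi (tt m (J - 1 + i))) (m - J)
    simp only [add_zero] at this
    rw [show J - 1 + (m - J) = m - 1 by omega] at this
    rw [← this]
    apply sum_congr rfl
    intro i _
    rw [show J + i - 1 = J - 1 + i by omega, show J - 1 + (i + 1) = J + i by omega]
  calc (1 - 2 / m) * (Psi (tt m (J - 1)) - Psi (tt m (m - 1)))
      = ∑ j ∈ Ico J m, (1 - 2 / m) * (Psi (tt m (j - 1)) - Psi (tt m j)) := by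
        rw [← mul_sum, htel]
    _ ≤ _ := sum_le_sum key

/-- The summand of the greedy drift. -/
noncomputable def FF (m i : ℕ) : ℝ :=
  (m : ℝ) / (2 * i * ((m : ℝ) - i)) * Real.log ((m : ℝ) / (max i (m - i) : ℕ))

lemma DG_eq (m : ℕ) (hm : 2 ≤ m) :
    Dm splitProb (fun m i => max i (m - i)) m = ∑ i ∈ Ico 1 m, FF m i := by
  unfold Dm FF
  apply sum_congr rfl
  intro i hi
  have hi' := mem_Ico.mp hi
  have hH := hh_pos hm
  have h0 : (0 : ℝ) < i := by exact_mod_cast hi'.1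
  have h1 : (i : ℝ) < m := by exact_mod_cast hi'.2
  have h4 : (0 : ℝ) < (m : ℝ) - i := by linarith
  congr 1
  unfold splitProb
  change hh m * ((m : ℝ) / (2 * hh m * i * (m - i))) = _
  field_simp

lemma FF_symm {m i : ℕ} (hi : i ≤ m) : FF m (m - i) = FF m i := by
  unfold FF
  have h1 : m - (m - i) = i := by omega
  rw [h1, max_comm, Nat.cast_sub hi]
  congr 2
  ring

lemma FF_eq {m j : ℕ} (hj : m < 2 * j) (hjm : j < m) : 2 * FF m j = ww m j := by
  unfold FF ww
  have h1 : max j (m - j) = j := by omega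
  rw [h1]
  have h0 : (0 : ℝ) < j := by exact_mod_cast (by omega : 0 < j)
  have h2 : (j : ℝ) < m := by exact_mod_cast hjm
  have h4 : (0 : ℝ) < (m : ℝ) - j := by linarith
  field_simp

lemma DG_split (m : ℕ) (hm : 2 ≤ m) :
    ∑ i ∈ Ico 1 m, FF m i = ∑ j ∈ Ico (m / 2 + 1) m, ww m j +
      ∑ i ∈ Ico (m - m / 2) (m / 2 + 1), FF m i := by
  have h1 : ∑ i ∈ Ico 1 m, FF m i = ∑ i ∈ Ico 1 (m - m / 2), FF m i +
      (∑ i ∈ Ico (m - m / 2) (m / 2 + 1), FF m i + ∑ i ∈ Ico (m / 2 + 1) m, FF m i) := by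
    rw [Finset.sum_Ico_consecutive _ (by omega) (by omega),
      Finset.sum_Ico_consecutive _ (by omega) (by omega)]
  have h2 : ∑ i ∈ Ico 1 (m - m / 2), FF m i = ∑ i ∈ Ico (m / 2 + 1) m, FF m i := by
    apply Finset.sum_nbij' (fun i => m - i) (fun i => m - i)
    · intro i hi; simp only [mem_Ico] at hi ⊢; omega
    · intro i hi; simp only [mem_Ico] at hi ⊢; omega
    · intro i hi; simp only [mem_Ico] at hi; omega
    · intro i hi; simp only [mem_Ico] at hi; omega
    · intro i hi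
      simp only [mem_Ico] at hi
      rw [FF_symm (by omega)]
  have h3 : ∑ j ∈ Ico (m / 2 + 1) m, ww m j = 2 * ∑ i ∈ Ico (m / 2 + 1) m, FF m i := by
    rw [mul_sum]
    apply sum_congr rfl
    intro j hj
    simp only [mem_Ico] at hj
    rw [FF_eq (by omega) hj.2]
  rw [h1, h2, h3]
  ring

lemma tie_bound (m : ℕ) (hm : 2 ≤ m) :
    0 ≤ ∑ i ∈ Ico (m - m / 2) (m / 2 + 1), FF m i ∧
    ∑ i ∈ Ico (m - m / 2) (m / 2 + 1), FF m i ≤ 2 / m := by
  rcases Nat.even_or_odd' m with ⟨c, hc | hc⟩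
  · have h1 : Ico (m - m / 2) (m / 2 + 1) = {c} := by
      ext i
      simp only [mem_Ico, mem_singleton]
      omega
    rw [h1, sum_singleton]
    have hc1 : 1 ≤ c := by omega
    have hcr : (0 : ℝ) < c := by exact_mod_cast hc1
    have hm2 : (m : ℝ) = 2 * c := by rw [hc]; push_cast; ring
    have h2 : FF m c = (1 / c) * Real.log 2 := by
      unfold FF
      have h3 : max c (m - c) = c := by omega
      rw [h3, hm2]
      have h4 : 2 * (c : ℝ) / c = 2 := by field_simp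
      rw [h4]
      have h5 : 2 * (c : ℝ) - c = c := by ring
      rw [h5]
      field_simp
    rw [h2, hm2]
    have hl0 : 0 < Real.log 2 := Real.log_pos (by norm_num)
    have hl1 := Real.log_two_lt_d9
    constructor
    · positivity
    · have h6 : 2 / (2 * (c : ℝ)) = (1 / c) * 1 := by field_simp
      rw [h6]
      apply mul_le_mul_of_nonneg_left _ (by positivity)
      linarith
  · have h1 : Ico (m - m / 2) (m / 2 + 1) = ∅ := by
      ext i
      simp only [mem_Ico, notMem_empty, iff_false]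
      omega
    rw [h1, sum_empty]
    constructor
    · exact le_rfl
    · positivity

theorem DG_tendsto :
    Tendsto (Dm splitProb (fun m i => max i (m - i))) atTop (𝓝 (Real.pi ^ 2 / 12)) := by
  have hinv : Tendsto (fun m : ℕ => 2 / (m : ℝ)) atTop (𝓝 0) :=
    tendsto_const_div_atTop_nhds_zero_nat 2
  have hup : Tendsto (fun m : ℕ => (1 + 2 / (m : ℝ)) * Psi 1 + 2 / (m : ℝ)) atTop
      (𝓝 ((1 + 0) * Psi 1 + 0)) :=
    ((tendsto_const_nhds.add hinv).mul_const _).add hinv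
  have hinv1 : Tendsto (fun m : ℕ => 1 / ((m - 1 : ℕ) : ℝ)) atTop (𝓝 0) := by
    exact (tendsto_const_div_atTop_nhds_zero_nat (1 : ℝ)).comp (tendsto_sub_atTop_nat 1)
  have hlo : Tendsto (fun m : ℕ => (1 - 2 / (m : ℝ)) * (Psi 1 - 1 / ((m - 1 : ℕ) : ℝ))) atTop
      (𝓝 ((1 - 0) * (Psi 1 - 0))) :=
    (tendsto_const_nhds.sub hinv).mul (tendsto_const_nhds.sub hinv1)
  rw [← Psi_one]
  have e1 : (1 + 0) * Psi 1 + 0 = Psi 1 := by ring
  have e2 : (1 - 0) * (Psi 1 - 0) = Psi 1 := by ring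
  rw [e1] at hup
  rw [e2] at hlo
  apply tendsto_of_tendsto_of_tendsto_of_le_of_le' hlo hup
  · filter_upwards [eventually_ge_atTop 4] with m hm
    rw [DG_eq m (by omega), DG_split m (by omega)]
    have h1 := sum_telescope_lower m (m / 2 + 1) (by omega) (by omega) (by omega)
    have h2 := (tie_bound m (by omega)).1
    have hm0 : (0 : ℝ) < m := by exact_mod_cast (by omega : 0 < m)
    have h3 : Psi 1 ≤ Psi (tt m (m / 2 + 1 - 1)) := by
      apply Psi_mono zero_le_one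
      unfold tt
      have h4 : (0 : ℝ) < ((m / 2 + 1 - 1 : ℕ) : ℝ) := by
        exact_mod_cast (by omega : 0 < m / 2 + 1 - 1)
      rw [le_div_iff₀ h4]
      have h5 : 2 * ((m / 2 + 1 - 1 : ℕ) : ℝ) ≤ m := by
        exact_mod_cast (by omega : 2 * (m / 2 + 1 - 1) ≤ m)
      linarith
    have h6 : Psi (tt m (m - 1)) ≤ 1 / ((m - 1 : ℕ) : ℝ) := by
      have h7 : tt m (m - 1) = 1 / ((m - 1 : ℕ) : ℝ) := by
        unfold tt
        rw [Nat.cast_sub (by omega : 1 ≤ m)]
        push_cast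
        ring
      rw [h7]
      apply Psi_le
      positivity
    have h8 : 0 ≤ 1 - 2 / (m : ℝ) := by
      rw [sub_nonneg, div_le_one hm0]
      exact_mod_cast (by omega : 2 ≤ m)
    have h9 : (1 - 2 / (m : ℝ)) * (Psi 1 - 1 / ((m - 1 : ℕ) : ℝ)) ≤
        (1 - 2 / (m : ℝ)) * (Psi (tt m (m / 2 + 1 - 1)) - Psi (tt m (m - 1))) := by
      apply mul_le_mul_of_nonneg_left _ h8
      linarith
    linarith
  · filter_upwards [eventually_ge_atTop 4] with m hm
    rw [DG_eq m (by omega), DG_split m (by omega)]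
    have h1 := sum_telescope_upper m (m / 2 + 1) (by omega) (by omega) (by omega)
    have h2 := (tie_bound m (by omega)).2
    have h3 : Psi (tt m (m / 2 + 1)) ≤ Psi 1 := by
      apply Psi_mono (tt_nonneg (by omega) (by omega))
      unfold tt
      have h4 : (0 : ℝ) < ((m / 2 + 1 : ℕ) : ℝ) := by
        exact_mod_cast (by omega : 0 < m / 2 + 1)
      rw [div_le_one h4]
      have h5 : (m : ℝ) ≤ 2 * ((m / 2 + 1 : ℕ) : ℝ) := by
        exact_mod_cast (by omega : m ≤ 2 * (m / 2 + 1))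
      linarith
    have h6 : (1 + 2 / (m : ℝ)) * Psi (tt m (m / 2 + 1)) ≤ (1 + 2 / (m : ℝ)) * Psi 1 := by
      apply mul_le_mul_of_nonneg_left h3
      positivity
    linarith

end Pool.Agent.Lib.MP_ce738d_pr
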