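import Pool.Agent.Lib.MP_ce738d_pr.LimU
import Pool.Agent.Lib.MP_ce738d_pr.LimG

open Finset Filter Topology

namespace Pool.Agent.Lib.MP_ce738d_pr

lemma log_sq_le_sqrt {x : ℝ} (hx : 1 ≤ x) : Real.log x ^ 2 ≤ 16 * Real.sqrt x := by
  have hx0 : 0 < x := by linarith
  have h1 : Real.log x = 4 * Real.log (Real.sqrt (Real.sqrt x)) := by
    rw [Real.log_sqrt (Real.sqrt_nonneg _), Real.log_sqrt hx0.le]
    ring
  have hs : 0 < Real.sqrt (Real.sqrt x) := Real.sqrt_pos.mpr (Real.sqrt_pos.mpr hx0)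
  have h2 : Real.log (Real.sqrt (Real.sqrt x)) ≤ Real.sqrt (Real.sqrt x) := by
    have := Real.log_le_sub_one_of_pos hs
    linarith
  have h3 : 0 ≤ Real.log x := Real.log_nonneg hx
  have h4 : Real.log x ≤ 4 * Real.sqrt (Real.sqrt x) := by linarith
  have h5 : Real.sqrt (Real.sqrt x) ^ 2 = Real.sqrt x := Real.sq_sqrt (Real.sqrt_nonneg _)
  calc Real.log x ^ 2 ≤ (4 * Real.sqrt (Real.sqrt x)) ^ 2 := pow_le_pow_left₀ h3 h4 2
    _ = 16 * Real.sqrt x := by rw [mul_pow, h5]; norm_num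

lemma sum_inv_sqrt (m : ℕ) : ∑ i ∈ Ico 1 (m + 1), 1 / Real.sqrt i ≤ 2 * Real.sqrt m := by
  induction m with
  | zero => simp
  | succ m ih =>
    rw [Finset.sum_Ico_succ_top (by omega)]
    have h1 : 1 / Real.sqrt ((m + 1 : ℕ) : ℝ) ≤ 2 * (Real.sqrt ((m + 1 : ℕ) : ℝ) - Real.sqrt m) := by
      have ha : 0 < Real.sqrt ((m + 1 : ℕ) : ℝ) := Real.sqrt_pos.mpr (by positivity)
      have hb : 0 ≤ Real.sqrt (m : ℝ) := Real.sqrt_nonneg _
      have hab : Real.sqrt (m : ℝ) ≤ Real.sqrt ((m + 1 : ℕ) : ℝ) := by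
        apply Real.sqrt_le_sqrt
        push_cast
        linarith
      have ha2 : Real.sqrt ((m + 1 : ℕ) : ℝ) ^ 2 = m + 1 := by
        rw [Real.sq_sqrt (by positivity)]
        push_cast
        ring
      have hb2 : Real.sqrt (m : ℝ) ^ 2 = m := Real.sq_sqrt (by positivity)
      rw [div_le_iff₀ ha]
      nlinarith
    linarith

lemma SU_bound (m : ℕ) (hm : 2 ≤ m) : Sm pU (fun _ i => i) m ≤ 66 := by
  have hH := hh_pos hm
  have hm0 : (0 : ℝ) < m := by exact_mod_cast (by omega : 0 < m)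
  have hsm : 0 < Real.sqrt (m : ℝ) := Real.sqrt_pos.mpr hm0
  have key : ∀ i ∈ Ico 1 m, hh m * pU m i * Real.log ((m : ℝ) / i) ^ 2 ≤
      32 / Real.sqrt m * (1 / Real.sqrt i) + 2 / m := by
    intro i hi
    have hi' := mem_Ico.mp hi
    have h0 : (0 : ℝ) < i := by exact_mod_cast hi'.1
    have h1 : (i : ℝ) < m := by exact_mod_cast hi'.2
    have h2 : (0 : ℝ) < (m : ℝ) - i := by linarith
    have h3 : hh m * pU m i = 1 / ((m : ℝ) - i) := by
      unfold pU
      field_simp
    rw [h3]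
    have hx : 1 ≤ (m : ℝ) / i := by
      rw [le_div_iff₀ h0]; linarith
    have hlog0 : 0 ≤ Real.log ((m : ℝ) / i) := Real.log_nonneg hx
    have hsi : 0 < Real.sqrt (i : ℝ) := Real.sqrt_pos.mpr h0
    rcases le_or_gt (2 * (i : ℝ)) m with h | h
    · have h4 := log_sq_le_sqrt hx
      have h5 : 1 / ((m : ℝ) - i) ≤ 2 / m := by
        rw [div_le_div_iff₀ h2 hm0]
        linarith
      have h6 : 1 / ((m : ℝ) - i) * Real.log ((m : ℝ) / i) ^ 2 ≤
          2 / m * (16 * Real.sqrt ((m : ℝ) / i)) := by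
        apply mul_le_mul h5 h4 (by positivity) (by positivity)
      have h7 : 2 / m * (16 * Real.sqrt ((m : ℝ) / i)) = 32 / Real.sqrt m * (1 / Real.sqrt i) := by
        rw [Real.sqrt_div hm0.le]
        have : (m : ℝ) = Real.sqrt m * Real.sqrt m := (Real.mul_self_sqrt hm0.le).symm
        field_simp
        rw [Real.sq_sqrt hm0.le]
        ring
      have h8 : 0 ≤ 2 / (m : ℝ) := by positivity
      linarith
    · have h4 : Real.log ((m : ℝ) / i) ≤ 1 := by
        have : (m : ℝ) / i ≤ 2 := by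
          rw [div_le_iff₀ h0]; linarith
        have h5 : Real.log ((m : ℝ) / i) ≤ (m : ℝ) / i - 1 :=
          Real.log_le_sub_one_of_pos (by positivity)
        linarith
      have h5 : Real.log ((m : ℝ) / i) ≤ ((m : ℝ) - i) / i := by
        have h6 : Real.log ((m : ℝ) / i) ≤ (m : ℝ) / i - 1 :=
          Real.log_le_sub_one_of_pos (by positivity)
        have h7 : (m : ℝ) / i - 1 = ((m : ℝ) - i) / i := by field_simp
        linarith
      have h8 : Real.log ((m : ℝ) / i) ^ 2 ≤ ((m : ℝ) - i) / i := by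
        calc Real.log ((m : ℝ) / i) ^ 2 = Real.log ((m : ℝ) / i) * Real.log ((m : ℝ) / i) := by ring
          _ ≤ 1 * (((m : ℝ) - i) / i) := mul_le_mul h4 h5 hlog0 zero_le_one
          _ = _ := one_mul _
      have h9 : 1 / ((m : ℝ) - i) * Real.log ((m : ℝ) / i) ^ 2 ≤ 1 / i := by
        calc 1 / ((m : ℝ) - i) * Real.log ((m : ℝ) / i) ^ 2
            ≤ 1 / ((m : ℝ) - i) * (((m : ℝ) - i) / i) :=
              mul_le_mul_of_nonneg_left h8 (by positivity)
          _ = 1 / i := by field_simp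
      have h10 : 1 / (i : ℝ) ≤ 2 / m := by
        rw [div_le_div_iff₀ h0 hm0]
        linarith
      have h11 : 0 ≤ 32 / Real.sqrt m * (1 / Real.sqrt i) := by positivity
      linarith
  unfold Sm
  calc ∑ i ∈ Ico 1 m, hh m * pU m i * Real.log ((m : ℝ) / i) ^ 2
      ≤ ∑ i ∈ Ico 1 m, (32 / Real.sqrt m * (1 / Real.sqrt i) + 2 / m) := sum_le_sum key
    _ = 32 / Real.sqrt m * ∑ i ∈ Ico 1 m, 1 / Real.sqrt i + ((m - 1 : ℕ) : ℝ) * (2 / m) := by
        rw [sum_add_distrib, ← mul_sum, sum_const, Nat.card_Ico, nsmul_eq_mul]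
    _ ≤ 32 / Real.sqrt m * (2 * Real.sqrt m) + m * (2 / m) := by
        apply add_le_add
        · apply mul_le_mul_of_nonneg_left _ (by positivity)
          refine le_trans ?_ (sum_inv_sqrt m)
          apply sum_le_sum_of_subset_of_nonneg
          · intro i hi
            simp only [mem_Ico] at hi ⊢
            omega
          · intro i _ _
            positivity
        · apply mul_le_mul_of_nonneg_right _ (by positivity)
          exact_mod_cast Nat.sub_le m 1
    _ = 66 := by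
        field_simp
        norm_num

lemma SG_bound (m : ℕ) (hm : 2 ≤ m) : Sm splitProb (fun m i => max i (m - i)) m ≤ 2 := by
  have hH := hh_pos hm
  have hm0 : (0 : ℝ) < m := by exact_mod_cast (by omega : 0 < m)
  have key : ∀ i ∈ Ico 1 m, hh m * splitProb m i *
      Real.log ((m : ℝ) / (max i (m - i) : ℕ)) ^ 2 ≤ 2 / m := by
    intro i hi
    have hi' := mem_Ico.mp hi
    have h0 : (0 : ℝ) < i := by exact_mod_cast hi'.1
    have h1 : (i : ℝ) < m := by exact_mod_cast hi'.2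
    have h2 : (0 : ℝ) < (m : ℝ) - i := by linarith
    have h3 : hh m * splitProb m i = (m : ℝ) / (2 * i * ((m : ℝ) - i)) := by
      unfold splitProb
      change hh m * ((m : ℝ) / (2 * hh m * i * (m - i))) = _
      field_simp
    rw [h3]
    -- J = max, K = min
    obtain ⟨J, K, hJ, hprod, hK0, hJ2, hJK⟩ : ∃ J K : ℝ, ((max i (m - i) : ℕ) : ℝ) = J ∧
        (i : ℝ) * ((m : ℝ) - i) = J * K ∧ 0 < K ∧ m ≤ 2 * J ∧ J + K = m := by
      rcases le_total i (m - i) with h | h
      · refine ⟨(m : ℝ) - i, i, ?_, ?_, h0, ?_, ?_⟩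
        · rw [max_eq_right h, Nat.cast_sub hi'.2.le]
        · ring
        · have : 2 * (i : ℝ) ≤ m := by exact_mod_cast (by omega : 2 * i ≤ m)
          linarith
        · ring
      · refine ⟨i, (m : ℝ) - i, ?_, ?_, h2, ?_, ?_⟩
        · rw [max_eq_left h]
        · ring
        · have : (m : ℝ) ≤ 2 * i := by exact_mod_cast (by omega : m ≤ 2 * i)
          linarith
        · ring
    rw [hJ]
    have hJ0 : 0 < J := by linarith
    have h4 : (m : ℝ) / (2 * i * ((m : ℝ) - i)) = (m : ℝ) / (2 * (J * K)) := by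
      rw [← hprod]; ring_nf
    rw [h4]
    have hx : 1 ≤ (m : ℝ) / J := by
      rw [le_div_iff₀ hJ0]; linarith
    have hlog0 : 0 ≤ Real.log ((m : ℝ) / J) := Real.log_nonneg hx
    have hlog1 : Real.log ((m : ℝ) / J) ≤ K / J := by
      have h5 : Real.log ((m : ℝ) / J) ≤ (m : ℝ) / J - 1 :=
        Real.log_le_sub_one_of_pos (by positivity)
      have h6 : (m : ℝ) / J - 1 = K / J := by
        field_simp
        linarith
      linarith
    calc (m : ℝ) / (2 * (J * K)) * Real.log ((m : ℝ) / J) ^ 2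
        ≤ (m : ℝ) / (2 * (J * K)) * (K / J) ^ 2 := by
          apply mul_le_mul_of_nonneg_left _ (by positivity)
          exact pow_le_pow_left₀ hlog0 hlog1 2
      _ = (m : ℝ) * K / (2 * J ^ 3) := by
          field_simp
      _ ≤ 2 / m := by
          rw [div_le_div_iff₀ (by positivity) hm0]
          have h7 : K ≤ J := by linarith
          have h8 : (m : ℝ) ^ 2 ≤ 4 * J ^ 2 := by nlinarith
          have h9 : (m : ℝ) * K * m = m ^ 2 * K := by ring
          rw [h9]
          calc (m : ℝ) ^ 2 * K ≤ (4 * J ^ 2) * J :=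
                mul_le_mul h8 h7 hK0.le (by positivity)
            _ = 2 * (2 * J ^ 3) := by ring
  unfold Sm
  calc ∑ i ∈ Ico 1 m, hh m * splitProb m i * Real.log ((m : ℝ) / (max i (m - i) : ℕ)) ^ 2
      ≤ ∑ i ∈ Ico 1 m, 2 / (m : ℝ) := sum_le_sum key
    _ = ((m - 1 : ℕ) : ℝ) * (2 / m) := by
        rw [sum_const, Nat.card_Ico, nsmul_eq_mul]
    _ ≤ m * (2 / m) := by
        apply mul_le_mul_of_nonneg_right _ (by positivity)
        exact_mod_cast Nat.sub_le m 1
    _ = 2 := by field_simp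

theorem EL_asymp : Tendsto (fun n : ℕ => EL n / Real.log n ^ 2) atTop (𝓝 (3 / Real.pi ^ 2)) := by
  have h := asymp EL pU (fun _ i => i) (Real.pi ^ 2 / 6) 66 (by positivity)
    (fun m hm i hi => pU_nonneg hm hi) (fun m hm => sum_pU hm)
    (fun m hm i hi => by simpa using mem_Ico.mp hi) EL_nonneg EL_rec DU_tendsto SU_bound
  have e : 1 / (2 * (Real.pi ^ 2 / 6)) = 3 / Real.pi ^ 2 := by
    have := Real.pi_pos
    field_simp
    norm_num
  rwa [e] at h

theorem ELplus_asymp (β : ℝ) :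
    Tendsto (fun n : ℕ => ELplus β n / Real.log n ^ 2) atTop (𝓝 (6 / Real.pi ^ 2)) := by
  have h := asymp (ELplus β) splitProb (fun m i => max i (m - i)) (Real.pi ^ 2 / 12) 2
    (by positivity)
    (fun m hm i hi => splitProb_nonneg (mem_Ico.mp hi).2.le) (fun m hm => sum_splitProb_Ico hm)
    (fun m hm i hi => by
      have := mem_Ico.mp hi
      omega) (ELplus_nonneg β) (ELplus_rec β) DG_tendsto SG_bound
  have e : 1 / (2 * (Real.pi ^ 2 / 12)) = 6 / Real.pi ^ 2 := by
    have := Real.pi_pos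
    field_simp
    norm_num
  rwa [e] at h

theorem Q1_asymp (β : ℝ) :
    Tendsto (fun n : ℕ => (ELplus β n - EL n) / Real.log n ^ 2) atTop (𝓝 (3 / Real.pi ^ 2)) := by
  have h := (ELplus_asymp β).sub EL_asymp
  have e : 6 / Real.pi ^ 2 - 3 / Real.pi ^ 2 = 3 / Real.pi ^ 2 := by ring
  rw [e] at h
  refine h.congr ?_
  intro n
  ring

end Pool.Agent.Lib.MP_ce738d_pr
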