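import Pool.Agent.Lib.MP_ce738d_pr.HeightMain
import Pool.Agent.Lib.MP_ce738d_pr.Q1

open Finset Filter Topology Asymptotics

namespace Pool.Agent.Lib.MP_ce738d_pr

lemma DD_tendsto : Tendsto DD atTop (𝓝 (Real.pi ^ 2 / 12)) := DG_tendsto

/-- the constant, slightly above `6 / π ^ 2` -/
noncomputable def cc : ℝ := 5001 / 5000 * (6 / Real.pi ^ 2)

lemma cc_gt : 6 / Real.pi ^ 2 < cc := by
  unfold cc
  have : 0 < 6 / Real.pi ^ 2 := by
    have := Real.pi_pos
    positivity
  linarith

lemma pi_sq_lo : (9.86 : ℝ) < Real.pi ^ 2 := by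
  have := Real.pi_gt_d4
  nlinarith

lemma pi_sq_hi : Real.pi ^ 2 < (9.88 : ℝ) := by
  have := Real.pi_lt_d4
  have := Real.pi_pos
  nlinarith

lemma cc_pos : 0 < cc := by
  have := Real.pi_pos
  unfold cc
  positivity

lemma cc_lo : 3 / 5 < cc := by
  unfold cc
  have h1 := pi_sq_hi
  have h2 := Real.pi_pos
  have h0 : 0 < Real.pi ^ 2 := by positivity
  rw [← mul_div_assoc, lt_div_iff₀ h0]
  nlinarith

lemma cc_hi : cc < 61 / 100 := by
  unfold cc
  have h1 := pi_sq_lo
  have h2 := Real.pi_pos
  have h0 : 0 < Real.pi ^ 2 := by positivity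
  rw [← mul_div_assoc, div_lt_iff₀ h0]
  nlinarith

lemma eventually_cc : ∀ᶠ m in atTop, 2 * cc * DD m ≤ 1 + 1 / 4000 := by
  have h : Tendsto (fun m => 2 * cc * DD m) atTop (𝓝 (2 * cc * (Real.pi ^ 2 / 12))) :=
    DD_tendsto.const_mul _
  have e : 2 * cc * (Real.pi ^ 2 / 12) = 1 + 1 / 5000 := by
    unfold cc
    have := Real.pi_pos
    field_simp
    norm_num
  rw [e] at h
  exact h.eventually (ge_mem_nhds (by norm_num))

lemma tent_zero {u : ℝ} (h : 1 / 4 ≤ |u|) : tent u = 0 := by
  unfold tent
  rw [max_eq_left]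
  linarith

lemma MM_nonneg {a b : ℕ} (ha : 1 ≤ a) (hb : 1 ≤ b) : 0 ≤ MM a b :=
  (HH_nonneg ha).trans (MM_ge_left ha hb)

theorem HH_lower : ∃ K : ℝ, ∀ n : ℕ, 1 ≤ n → cc * Real.log n ^ 2 - K ≤ HH n := by
  obtain ⟨m₁, hm₁⟩ := Filter.eventually_atTop.mp
    (eventually_cc.and ((log_tendsto.eventually_ge_atTop 10000).and (eventually_ge_atTop 100)))
  set M := 2 * m₁ with hM
  have hm₁100 : 100 ≤ m₁ := (hm₁ m₁ le_rfl).2.2
  set L := Real.log M with hL
  have hL0 : 0 ≤ L := Real.log_natCast_nonneg M
  set K := cc * L ^ 2 + 1 / 25 * L * (1 / 4) with hK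
  have hcc := cc_pos
  refine ⟨K, ?_⟩
  have main : ∀ N : ℕ, (∀ m, 1 ≤ m → m ≤ N → cc * Real.log m ^ 2 - K ≤ HH m) ∧
      (∀ a b, 1 ≤ a → 1 ≤ b → a ≤ N → b ≤ N → WW cc K a b ≤ MM a b) := by
    intro N
    induction N with
    | zero =>
      exact ⟨fun m h1 h2 => by omega, fun a b h1 h2 h3 h4 => by omega⟩
    | succ N ih =>
      obtain ⟨ih1, ih2⟩ := ih
      have hV : ∀ m, 1 ≤ m → m ≤ N + 1 → cc * Real.log m ^ 2 - K ≤ HH m := by
        intro m hm hmN
        rcases Nat.lt_or_ge N m with hlt | hle
        · have hmN' : m = N + 1 := by omega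
          rcases Nat.lt_or_ge M m with hMm | hMm
          · obtain ⟨h1, h2, h3⟩ := hm₁ m (by omega)
            rw [HH_rec (by omega)]
            refine (N1 cc K hcc m h3 h1 (by linarith)).trans ?_
            gcongr with i hi
            · exact splitProb_nonneg (mem_Ico.mp hi).2.le
            · have hi' := mem_Ico.mp hi
              exact ih2 i (m - i) (by omega) (by omega) (by omega) (by omega)
          · have h0 := HH_nonneg hm
            have hlm : Real.log m ≤ L := by
              apply Real.log_le_log (by exact_mod_cast (by omega : 0 < m))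
              exact_mod_cast hMm
            have hlm0 : 0 ≤ Real.log m := Real.log_natCast_nonneg m
            have hsq : Real.log m ^ 2 ≤ L ^ 2 := by gcongr
            have : cc * Real.log m ^ 2 ≤ cc * L ^ 2 := by gcongr
            have : 0 ≤ 1 / 25 * L * (1 / 4) := by positivity
            linarith
        · exact ih1 m hm hle
      refine ⟨hV, ?_⟩
      have hW : ∀ a b, 1 ≤ a → 1 ≤ b → a = N + 1 → b ≤ a → WW cc K a b ≤ MM a b := by
        intro a b ha hb haN hba
        have hb0 : (0 : ℝ) < b := by exact_mod_cast (by omega : 0 < b)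
        have ha0 : (0 : ℝ) < a := by exact_mod_cast (by omega : 0 < a)
        have hlba : Real.log b ≤ Real.log a := Real.log_le_log hb0 (by exact_mod_cast hba)
        rcases Nat.lt_or_ge M a with hMa | hMa
        · rcases lt_or_ge (Real.log a - Real.log b) (1 / 4) with hu | hu
          · -- b is large
            have hb1 : m₁ ≤ b := by
              by_contra hcon
              push Not at hcon
              have h2b : 2 * b ≤ a := by omega
              have h3 : Real.log (2 * b) ≤ Real.log a := by
                apply Real.log_le_log (by positivity)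
                exact_mod_cast h2b
              rw [Real.log_mul (by norm_num) hb0.ne'] at h3
              have h4 : (0.6931471803 : ℝ) < Real.log 2 := Real.log_two_gt_d9
              linarith
            obtain ⟨h1, h2, h3⟩ := hm₁ a (by omega)
            obtain ⟨h1', h2', h3'⟩ := hm₁ b hb1
            refine (N2 cc K hcc cc_hi cc_lo a b hba h3' hu (by linarith) (by linarith) h2').trans ?_
            refine le_trans ?_ (MM_ge (by omega) (by omega))
            gcongr with i hi j hj
            · exact mul_nonneg (splitProb_nonneg (mem_Ico.mp hi).2.le)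
                (splitProb_nonneg (mem_Ico.mp hj).2.le)
            · have hi' := mem_Ico.mp hi
              have hj' := mem_Ico.mp hj
              exact ih2 _ _ (by omega) (by omega) (by omega) (by omega)
          · have hW : WW cc K a b = cc * Real.log a ^ 2 - K := by
              unfold WW
              rw [tent_zero (by rw [abs_of_nonneg (by linarith)]; exact hu), max_eq_left hlba]
              ring
            rw [hW]
            exact (hV a ha (by omega)).trans (MM_ge_left ha hb)
        · have h0 := MM_nonneg ha hb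
          have hla : Real.log a ≤ L := by
            apply Real.log_le_log ha0
            exact_mod_cast hMa
          have hla0 : 0 ≤ Real.log a := Real.log_natCast_nonneg a
          have hsq : Real.log a ^ 2 ≤ L ^ 2 := by gcongr
          have h1 : cc * Real.log a ^ 2 ≤ cc * L ^ 2 := by gcongr
          have ht0 := tent_nonneg (Real.log a - Real.log b)
          have ht1 := tent_le (Real.log a - Real.log b)
          have h2 : 1 / 25 * Real.log a * tent (Real.log a - Real.log b) ≤ 1 / 25 * L * (1 / 4) := by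
            gcongr
          unfold WW
          rw [max_eq_left hlba]
          linarith
      intro a b ha hb haN hbN
      rcases Nat.lt_or_ge N a with h1 | h1
      · exact hW a b ha hb (by omega) (by omega)
      · rcases Nat.lt_or_ge N b with h2 | h2
        · rw [WW_symm, MM_symm]
          exact hW b a hb ha (by omega) (by omega)
        · exact ih2 a b ha hb h1 h2
  intro n hn
  exact (main n).1 n hn le_rfl

/-- the height beats the greedy path by at least a constant multiple of `log² n` -/
theorem gap_lower (β : ℝ) : ∃ δ : ℝ, 0 < δ ∧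
    ∀ᶠ n : ℕ in atTop, δ * Real.log n ^ 2 ≤ ELstar n - ELplus β n := by
  obtain ⟨K, hK⟩ := HH_lower
  set δ := (cc - 6 / Real.pi ^ 2) / 3 with hδ
  have hδ0 : 0 < δ := by
    have := cc_gt
    rw [hδ]
    linarith
  refine ⟨δ, hδ0, ?_⟩
  have h1 : ∀ᶠ n : ℕ in atTop, ELplus β n / Real.log n ^ 2 ≤ 6 / Real.pi ^ 2 + δ :=
    (ELplus_asymp β).eventually (ge_mem_nhds (by linarith))
  have hlog2 : Tendsto (fun n : ℕ => Real.log (n : ℝ) ^ 2) atTop atTop :=
    (tendsto_pow_atTop (by norm_num)).comp log_tendsto
  filter_upwards [h1, hlog2.eventually_ge_atTop (K / δ), hlog2.eventually_gt_atTop 0,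
    eventually_ge_atTop 1] with n hn1 hn2 hn3 hn4
  rw [ELstar_eq n hn4]
  rw [div_le_iff₀ hn3] at hn1
  rw [div_le_iff₀ hδ0] at hn2
  have h2 := hK n hn4
  have h3 : cc = 6 / Real.pi ^ 2 + 3 * δ := by
    rw [hδ]
    ring
  rw [h3] at h2
  linarith

theorem gap_upper (β : ℝ) : ∀ᶠ n : ℕ in atTop, ELstar n - ELplus β n ≤ 10 * Real.log n ^ 2 := by
  filter_upwards [log_tendsto.eventually_ge_atTop 1, eventually_ge_atTop 2] with n h1 h2
  have h3 := HH_upper n h2
  have h4 := ELplus_nonneg β n (by omega)
  rw [ELstar_eq n (by omega)]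
  nlinarith

theorem Q2_theta (β : ℝ) :
    (fun n : ℕ => ELstar n - ELplus β n) =Θ[atTop] (fun n : ℕ => Real.log n ^ 2) := by
  obtain ⟨δ, hδ, hlow⟩ := gap_lower β
  have hup := gap_upper β
  constructor
  · apply IsBigO.of_bound 10
    filter_upwards [hlow, hup] with n h1 h2
    have h0 : 0 ≤ δ * Real.log n ^ 2 := by positivity
    rw [Real.norm_of_nonneg (h0.trans h1), Real.norm_of_nonneg (sq_nonneg _)]
    exact h2
  · apply IsBigO.of_bound (1 / δ)
    filter_upwards [hlow] with n h1
    have h0 : 0 ≤ δ * Real.log n ^ 2 := by positivity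
    rw [Real.norm_of_nonneg (h0.trans h1), Real.norm_of_nonneg (sq_nonneg _), one_div,
      ← div_eq_inv_mul, le_div_iff₀ hδ]
    linarith

end Pool.Agent.Lib.MP_ce738d_pr
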