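import Pool.Agent.Lib.MP_ce738d_pr.Height

open Finset Filter Topology

namespace Pool.Agent.Lib.MP_ce738d_pr

/-- log-decrement of the larger sub-clade -/
noncomputable def zz (a i : ℕ) : ℝ := Real.log a - Real.log (max i (a - i) : ℕ)

/-- tent function -/
noncomputable def tent (u : ℝ) : ℝ := max 0 (1 / 4 - |u|)

lemma tent_nonneg (u : ℝ) : 0 ≤ tent u := le_max_left _ _

lemma tent_le (u : ℝ) : tent u ≤ 1 / 4 := by
  unfold tent
  apply max_le (by norm_num)
  have := abs_nonneg u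
  linarith

lemma tent_lipschitz (u v : ℝ) : tent u - tent v ≤ |u - v| := by
  unfold tent
  rw [sub_le_iff_le_add]
  apply max_le
  · have := abs_nonneg (u - v)
    have := le_max_left 0 (1 / 4 - |v|)
    linarith
  · have h1 : |v| - |u| ≤ |u - v| := by
      have := abs_sub_abs_le_abs_sub v u
      rwa [abs_sub_comm] at this
    have := le_max_right 0 (1 / 4 - |v|)
    linarith

lemma tent_neg (u : ℝ) : tent (-u) = tent u := by
  unfold tent
  rw [abs_neg]

lemma max_pos' {a i : ℕ} (hi : i ∈ Ico 1 a) : (0 : ℝ) < (max i (a - i) : ℕ) := by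
  have hi' := mem_Ico.mp hi
  exact_mod_cast (by omega : 0 < max i (a - i))

lemma zz_eq {a i : ℕ} (hi : i ∈ Ico 1 a) : zz a i = Real.log ((a : ℝ) / (max i (a - i) : ℕ)) := by
  have hi' := mem_Ico.mp hi
  have h1 := max_pos' hi
  have h2 : (0 : ℝ) < a := by exact_mod_cast (by omega : 0 < a)
  unfold zz
  rw [Real.log_div h2.ne' h1.ne']

lemma zz_nonneg {a i : ℕ} (hi : i ∈ Ico 1 a) : 0 ≤ zz a i := by
  have hi' := mem_Ico.mp hi
  unfold zz
  rw [sub_nonneg]
  apply Real.log_le_log (max_pos' hi)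
  exact_mod_cast (by omega : max i (a - i) ≤ a)

lemma zz_le_log_two {a i : ℕ} (hi : i ∈ Ico 1 a) : zz a i ≤ Real.log 2 := by
  have hi' := mem_Ico.mp hi
  rw [zz_eq hi]
  have h1 := max_pos' hi
  have h2 : (0 : ℝ) < a := by exact_mod_cast (by omega : 0 < a)
  apply Real.log_le_log (by positivity)
  rw [div_le_iff₀ h1]
  exact_mod_cast (by omega : a ≤ 2 * max i (a - i))

/-- `∑ q(a,i) ζ_i = D_a / h_a` -/
lemma sum_zz {a : ℕ} (ha : 2 ≤ a) : ∑ i ∈ Ico 1 a, splitProb a i * zz a i =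
    Dm splitProb (fun m i => max i (m - i)) a / hh a := by
  have hH := hh_pos ha
  unfold Dm
  rw [sum_div]
  apply sum_congr rfl
  intro i hi
  rw [zz_eq hi]
  field_simp

lemma hh_splitProb {a i : ℕ} (ha : 2 ≤ a) (hi : i ∈ Ico 1 a) :
    hh a * splitProb a i = (a : ℝ) / (2 * i * ((a : ℝ) - i)) := by
  have hH := hh_pos ha
  have hi' := mem_Ico.mp hi
  have h0 : (0 : ℝ) < i := by exact_mod_cast hi'.1
  have h1 : (i : ℝ) < a := by exact_mod_cast hi'.2
  have h2 : (0 : ℝ) < (a : ℝ) - i := by linarith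
  unfold splitProb
  change hh a * ((a : ℝ) / (2 * hh a * i * (a - i))) = _
  field_simp

/-- all weights are at least `2/a` -/
lemma weight_ge {a i : ℕ} (ha : 2 ≤ a) (hi : i ∈ Ico 1 a) : 2 / (a : ℝ) ≤ hh a * splitProb a i := by
  rw [hh_splitProb ha hi]
  have hi' := mem_Ico.mp hi
  have h0 : (0 : ℝ) < i := by exact_mod_cast hi'.1
  have h1 : (i : ℝ) < a := by exact_mod_cast hi'.2
  have h2 : (0 : ℝ) < (a : ℝ) - i := by linarith
  have h3 : (0 : ℝ) < a := by linarith
  rw [div_le_div_iff₀ h3 (by positivity)]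
  nlinarith [sq_nonneg ((a : ℝ) - 2 * i)]

/-- number of integers in a real interval, lower bound -/
lemma count_ge (a : ℕ) (s t : ℝ) (hs : 0 ≤ s) (ht : t ≤ 1) (hst : s ≤ t) (hs0 : 1 ≤ s * a)
    (ht0 : t * a + 1 ≤ a) :
    (t - s) * a - 1 ≤ (((Ico 1 a).filter (fun i : ℕ => s * a ≤ (i : ℝ) ∧ (i : ℝ) ≤ t * a)).card : ℝ) := by
  have hsub : Icc ⌈s * a⌉₊ ⌊t * a⌋₊ ⊆
      (Ico 1 a).filter (fun i : ℕ => s * a ≤ (i : ℝ) ∧ (i : ℝ) ≤ t * a) := by
    intro i hi
    rw [mem_Icc] at hi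
    rw [mem_filter, mem_Ico]
    have h1 : s * a ≤ i := (Nat.le_ceil _).trans (by exact_mod_cast hi.1)
    have h2 : (i : ℝ) ≤ t * a := by
      have : (i : ℝ) ≤ ⌊t * a⌋₊ := by exact_mod_cast hi.2
      exact this.trans (Nat.floor_le (mul_nonneg (hs.trans hst) (by positivity)))
    refine ⟨⟨?_, ?_⟩, h1, h2⟩
    · have : (1 : ℝ) ≤ i := hs0.trans h1
      exact_mod_cast this
    · have : (i : ℝ) < a := by linarith
      exact_mod_cast this
  have h1 : (((Icc ⌈s * a⌉₊ ⌊t * a⌋₊).card : ℕ) : ℝ) ≤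
      (((Ico 1 a).filter (fun i : ℕ => s * a ≤ (i : ℝ) ∧ (i : ℝ) ≤ t * a)).card : ℝ) := by
    exact_mod_cast card_le_card hsub
  refine le_trans ?_ h1
  rw [Nat.card_Icc]
  have h2 : (⌊t * a⌋₊ : ℝ) + 1 - ⌈s * a⌉₊ ≤ ((⌊t * a⌋₊ + 1 - ⌈s * a⌉₊ : ℕ) : ℝ) := by
    have h3 : (⌊t * a⌋₊ : ℝ) + 1 ≤ ((⌊t * a⌋₊ + 1 - ⌈s * a⌉₊ : ℕ) : ℝ) + ⌈s * a⌉₊ := by
      exact_mod_cast le_tsub_add
    linarith
  have h3 : t * a < ⌊t * a⌋₊ + 1 := Nat.lt_floor_add_one _
  have h4 : (⌈s * a⌉₊ : ℝ) < s * a + 1 := Nat.ceil_lt_add_one (by positivity)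
  linarith

/-- the tent gain: `∑ h q(m,i) tent(log (i/(m-i))) ≥ 1/100` for large `m` -/
lemma tent_gain {m : ℕ} (hm : 100 ≤ m) :
    1 / 100 ≤ ∑ i ∈ Ico 1 m, hh m * splitProb m i * tent (Real.log i - Real.log (m - i : ℕ)) := by
  have hm0 : (0 : ℝ) < m := by exact_mod_cast (by omega : 0 < m)
  have hm100 : (100 : ℝ) ≤ m := by exact_mod_cast hm
  set S := (Ico 1 m).filter (fun i : ℕ => (47 / 100 : ℝ) * m ≤ (i : ℝ) ∧ (i : ℝ) ≤ (53 / 100 : ℝ) * m) with hS
  have hcount := count_ge m (47 / 100) (53 / 100) (by norm_num) (by norm_num) (by norm_num)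
    (by linarith) (by linarith)
  have key : ∀ i ∈ S, 2 / (m : ℝ) * (12 / 100) ≤
      hh m * splitProb m i * tent (Real.log i - Real.log (m - i : ℕ)) := by
    intro i hi
    rw [hS, mem_filter] at hi
    obtain ⟨hi1, hi2, hi3⟩ := hi
    have hi' := mem_Ico.mp hi1
    have h0 : (0 : ℝ) < i := by exact_mod_cast hi'.1
    have h1 : (i : ℝ) < m := by exact_mod_cast hi'.2
    have h2 : (0 : ℝ) < (m : ℝ) - i := by linarith
    have hw := weight_ge (by omega) hi1
    rw [Nat.cast_sub hi'.2.le]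
    have h3 : 12 / 100 ≤ tent (Real.log i - Real.log ((m : ℝ) - i)) := by
      have h4 : |Real.log i - Real.log ((m : ℝ) - i)| ≤ 13 / 100 := by
        rw [← Real.log_div h0.ne' h2.ne', abs_le]
        constructor
        · have h5 := Real.one_sub_inv_le_log_of_pos (show 0 < (i : ℝ) / ((m : ℝ) - i) by positivity)
          have h6 : ((i : ℝ) / ((m : ℝ) - i))⁻¹ ≤ 113 / 100 := by
            rw [inv_div, div_le_iff₀ h0]
            linarith
          linarith
        · have h5 := Real.log_le_sub_one_of_pos (show 0 < (i : ℝ) / ((m : ℝ) - i) by positivity)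
          have h6 : (i : ℝ) / ((m : ℝ) - i) ≤ 113 / 100 := by
            rw [div_le_iff₀ h2]
            linarith
          linarith
      unfold tent
      refine le_trans ?_ (le_max_right _ _)
      linarith
    apply mul_le_mul hw h3 (by norm_num)
    exact le_trans (by positivity) hw
  have h1 : ∑ i ∈ S, 2 / (m : ℝ) * (12 / 100) ≤
      ∑ i ∈ Ico 1 m, hh m * splitProb m i * tent (Real.log i - Real.log (m - i : ℕ)) := by
    refine (sum_le_sum key).trans ?_
    apply sum_le_sum_of_subset_of_nonneg (filter_subset _ _)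
    intro i hi _
    have hw := weight_ge (by omega) hi
    have : 0 ≤ hh m * splitProb m i := le_trans (by positivity) hw
    exact mul_nonneg this (tent_nonneg _)
  refine le_trans ?_ h1
  rw [sum_const, nsmul_eq_mul]
  have h2 : ((53 / 100 - 47 / 100) * (m : ℝ) - 1) * (2 / (m : ℝ) * (12 / 100)) ≤
      (S.card : ℝ) * (2 / (m : ℝ) * (12 / 100)) :=
    mul_le_mul_of_nonneg_right hcount (by positivity)
  refine le_trans ?_ h2
  have h3 : ((53 / 100 - 47 / 100) * (m : ℝ) - 1) * (2 / (m : ℝ) * (12 / 100)) =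
      144 / 10000 - 24 / 100 / m := by
    field_simp
    ring
  rw [h3]
  have h4 : 24 / 100 / (m : ℝ) ≤ 24 / 100 / 100 := by
    apply div_le_div_of_nonneg_left (by norm_num) (by norm_num) hm100
  linarith

/-- the truncated drift is smaller: `∑ h q min(ζ,u) ≤ D_a - 7/100`, `u ≤ 1/4` -/
lemma trunc_drift {a : ℕ} (ha : 20 ≤ a) {u : ℝ} (hu : u ≤ 1 / 4) :
    ∑ i ∈ Ico 1 a, hh a * splitProb a i * min (zz a i) u ≤
      Dm splitProb (fun m i => max i (m - i)) a - 7 / 100 := by
  have ha0 : (0 : ℝ) < a := by exact_mod_cast (by omega : 0 < a)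
  have ha20 : (20 : ℝ) ≤ a := by exact_mod_cast ha
  set S := (Ico 1 a).filter (fun i : ℕ => (2 / 5 : ℝ) * a ≤ (i : ℝ) ∧ (i : ℝ) ≤ (3 / 5 : ℝ) * a) with hS
  have hcount := count_ge a (2 / 5) (3 / 5) (by norm_num) (by norm_num) (by norm_num)
    (by linarith) (by linarith)
  have hlog : 51 / 100 ≤ Real.log (5 / 3) := by
    -- log(5/3) ≥ 0.51
    have h1 : Real.log (5 / 3) = 2 * Real.log (Real.sqrt (5 / 3)) := by
      rw [Real.log_sqrt (by norm_num)]; ring
    have h2 : Real.log (5 / 3) = - Real.log (3 / 5) := by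
      rw [← Real.log_inv]; norm_num
    -- use exp bound: exp(0.51) ≤ 5/3
    rw [Real.le_log_iff_exp_le (by norm_num)]
    have h3 := Real.exp_bound' (x := 51 / 100) (by norm_num) (by norm_num) (n := 5) (by norm_num)
    refine h3.trans ?_
    simp only [Finset.sum_range_succ, Finset.sum_range_zero, Nat.factorial]
    norm_num
  have key : ∀ i ∈ S, 2 / (a : ℝ) * (26 / 100) ≤
      hh a * splitProb a i * (zz a i - min (zz a i) u) := by
    intro i hi
    rw [hS, mem_filter] at hi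
    obtain ⟨hi1, hi2, hi3⟩ := hi
    have hi' := mem_Ico.mp hi1
    have hw := weight_ge (by omega) hi1
    have h3 : 26 / 100 ≤ zz a i - min (zz a i) u := by
      have h4 : 51 / 100 ≤ zz a i := by
        rw [zz_eq hi1]
        refine hlog.trans ?_
        apply Real.log_le_log (by norm_num)
        have hmp := max_pos' hi1
        rw [le_div_iff₀ hmp]
        have h5 : ((max i (a - i) : ℕ) : ℝ) ≤ 3 / 5 * a := by
          rcases le_total i (a - i) with h | h
          · rw [max_eq_right h, Nat.cast_sub hi'.2.le]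
            linarith
          · rw [max_eq_left h]
            exact hi3
        linarith
      have h5 : min (zz a i) u ≤ u := min_le_right _ _
      linarith
    apply mul_le_mul hw h3 (by norm_num)
    exact le_trans (by positivity) hw
  have h1 : ∑ i ∈ S, 2 / (a : ℝ) * (26 / 100) ≤
      ∑ i ∈ Ico 1 a, hh a * splitProb a i * (zz a i - min (zz a i) u) := by
    refine (sum_le_sum key).trans ?_
    apply sum_le_sum_of_subset_of_nonneg (filter_subset _ _)
    intro i hi _
    have hw := weight_ge (by omega) hi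
    have h2 : 0 ≤ hh a * splitProb a i := le_trans (by positivity) hw
    have h3 : min (zz a i) u ≤ zz a i := min_le_left _ _
    exact mul_nonneg h2 (by linarith)
  have h2 : ∑ i ∈ Ico 1 a, hh a * splitProb a i * (zz a i - min (zz a i) u) =
      Dm splitProb (fun m i => max i (m - i)) a -
      ∑ i ∈ Ico 1 a, hh a * splitProb a i * min (zz a i) u := by
    unfold Dm
    rw [← sum_sub_distrib]
    apply sum_congr rfl
    intro i hi
    rw [zz_eq hi]
    ring
  rw [h2] at h1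
  rw [sum_const, nsmul_eq_mul] at h1
  have h3 : ((3 / 5 - 2 / 5) * (a : ℝ) - 1) * (2 / (a : ℝ) * (26 / 100)) ≤
      (S.card : ℝ) * (2 / (a : ℝ) * (26 / 100)) :=
    mul_le_mul_of_nonneg_right hcount (by positivity)
  have h4 : ((3 / 5 - 2 / 5) * (a : ℝ) - 1) * (2 / (a : ℝ) * (26 / 100)) =
      104 / 1000 - 52 / 100 / a := by
    field_simp
    ring
  have h5 : 52 / 100 / (a : ℝ) ≤ 52 / 100 / 20 := by
    apply div_le_div_of_nonneg_left (by norm_num) (by norm_num) ha20
  linarith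

/-- `∑ h q sqrt ζ ≤ 6` -/
lemma sum_sqrt_zz {a : ℕ} (ha : 2 ≤ a) :
    ∑ i ∈ Ico 1 a, hh a * splitProb a i * Real.sqrt (zz a i) ≤ 6 := by
  have ha0 : (0 : ℝ) < a := by exact_mod_cast (by omega : 0 < a)
  have hsa : 0 < Real.sqrt a := Real.sqrt_pos.mpr ha0
  have key : ∀ i ∈ Ico 1 a, hh a * splitProb a i * Real.sqrt (zz a i) ≤
      (3 / 2) / Real.sqrt a * (1 / Real.sqrt i + 1 / Real.sqrt ((a - i : ℕ) : ℝ)) := by
    intro i hi
    have hi' := mem_Ico.mp hi
    rw [hh_splitProb ha hi]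
    have h0 : (0 : ℝ) < i := by exact_mod_cast hi'.1
    have h1 : (i : ℝ) < a := by exact_mod_cast hi'.2
    have h2 : (0 : ℝ) < (a : ℝ) - i := by linarith
    have hcast : ((a - i : ℕ) : ℝ) = (a : ℝ) - i := by rw [Nat.cast_sub hi'.2.le]
    obtain ⟨J, K, hJ, hprod, hK0, hJ2, hJK, hKs⟩ : ∃ J K : ℝ, ((max i (a - i) : ℕ) : ℝ) = J ∧
        (i : ℝ) * ((a : ℝ) - i) = J * K ∧ 0 < K ∧ a ≤ 2 * J ∧ J + K = a ∧
        1 / Real.sqrt K ≤ 1 / Real.sqrt i + 1 / Real.sqrt ((a - i : ℕ) : ℝ) := by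
      rcases le_total i (a - i) with h | h
      · refine ⟨(a : ℝ) - i, i, ?_, ?_, h0, ?_, ?_, ?_⟩
        · rw [max_eq_right h, Nat.cast_sub hi'.2.le]
        · ring
        · have : 2 * (i : ℝ) ≤ a := by exact_mod_cast (by omega : 2 * i ≤ a)
          linarith
        · ring
        · have : 0 ≤ 1 / Real.sqrt ((a - i : ℕ) : ℝ) := by positivity
          linarith
      · refine ⟨i, (a : ℝ) - i, ?_, ?_, h2, ?_, ?_, ?_⟩
        · rw [max_eq_left h]
        · ring
        · have : (a : ℝ) ≤ 2 * i := by exact_mod_cast (by omega : a ≤ 2 * i)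
          linarith
        · ring
        · rw [hcast]
          have : 0 ≤ 1 / Real.sqrt (i : ℝ) := by positivity
          linarith
    have hJ0 : 0 < J := by linarith
    have hz : zz a i ≤ 2 * K / a := by
      rw [zz_eq hi, hJ]
      have h5 : Real.log ((a : ℝ) / J) ≤ (a : ℝ) / J - 1 :=
        Real.log_le_sub_one_of_pos (by positivity)
      have h6 : (a : ℝ) / J - 1 = K / J := by
        field_simp
        linarith
      have h7 : K / J ≤ 2 * K / a := by
        rw [div_le_div_iff₀ hJ0 ha0]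
        nlinarith
      linarith
    have hsz : Real.sqrt (zz a i) ≤ Real.sqrt 2 * Real.sqrt K / Real.sqrt a := by
      rw [← Real.sqrt_mul (by norm_num), ← Real.sqrt_div (by positivity)]
      exact Real.sqrt_le_sqrt hz
    have hw : (a : ℝ) / (2 * i * ((a : ℝ) - i)) ≤ 1 / K := by
      have : (a : ℝ) / (2 * i * ((a : ℝ) - i)) = (a : ℝ) / (2 * (J * K)) := by
        rw [← hprod]; ring_nf
      rw [this, div_le_div_iff₀ (by positivity) hK0]
      nlinarith
    have hsK : 0 < Real.sqrt K := Real.sqrt_pos.mpr hK0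
    have hs2 : Real.sqrt 2 ≤ 3 / 2 := by
      rw [Real.sqrt_le_left (by norm_num)]
      norm_num
    calc (a : ℝ) / (2 * i * ((a : ℝ) - i)) * Real.sqrt (zz a i)
        ≤ 1 / K * (Real.sqrt 2 * Real.sqrt K / Real.sqrt a) := by
          apply mul_le_mul hw hsz (Real.sqrt_nonneg _) (by positivity)
      _ = Real.sqrt 2 / Real.sqrt a * (1 / Real.sqrt K) := by
          have : K = Real.sqrt K * Real.sqrt K := (Real.mul_self_sqrt hK0.le).symm
          nth_rewrite 1 [this]
          field_simp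
      _ ≤ (3 / 2) / Real.sqrt a * (1 / Real.sqrt i + 1 / Real.sqrt ((a - i : ℕ) : ℝ)) := by
          apply mul_le_mul _ hKs (by positivity) (by positivity)
          apply div_le_div_of_nonneg_right hs2 hsa.le
  refine (sum_le_sum key).trans ?_
  rw [← mul_sum, sum_add_distrib, sum_Ico_reflect' a (fun i => 1 / Real.sqrt (i : ℝ)), ← two_mul]
  have h1 : ∑ i ∈ Ico 1 a, 1 / Real.sqrt (i : ℝ) ≤ 2 * Real.sqrt a := by
    refine le_trans ?_ (sum_inv_sqrt a)
    apply sum_le_sum_of_subset_of_nonneg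
    · intro i hi
      simp only [mem_Ico] at hi ⊢
      omega
    · intro i _ _
      positivity
  calc (3 / 2) / Real.sqrt a * (2 * ∑ i ∈ Ico 1 a, 1 / Real.sqrt (i : ℝ))
      ≤ (3 / 2) / Real.sqrt a * (2 * (2 * Real.sqrt a)) := by
        apply mul_le_mul_of_nonneg_left _ (by positivity)
        linarith
    _ = 6 := by
        field_simp
        norm_num

end Pool.Agent.Lib.MP_ce738d_pr
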