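import Pool.Agent.Lib.MP_ce738d_pr.HeightLower

open Finset Filter Topology

namespace Pool.Agent.Lib.MP_ce738d_pr

/-- the potential -/
noncomputable def WW (c K : ℝ) (a b : ℕ) : ℝ :=
  c * max (Real.log a) (Real.log b) ^ 2 +
    1 / 25 * max (Real.log a) (Real.log b) * tent (Real.log a - Real.log b) - K

/-- greedy drift -/
noncomputable def DD (m : ℕ) : ℝ := Dm splitProb (fun m i => max i (m - i)) m

lemma WW_symm (c K : ℝ) (a b : ℕ) : WW c K a b = WW c K b a := by
  unfold WW
  rw [max_comm, show Real.log a - Real.log b = -(Real.log b - Real.log a) by ring, tent_neg]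

lemma log_max_eq {m i : ℕ} (hi : i ∈ Ico 1 m) :
    max (Real.log i) (Real.log (m - i : ℕ)) = Real.log m - zz m i := by
  have hi' := mem_Ico.mp hi
  unfold zz
  rw [sub_sub_cancel]
  have h0 : (0 : ℝ) < i := by exact_mod_cast hi'.1
  have h1 : (0 : ℝ) < (m - i : ℕ) := by exact_mod_cast (by omega : 0 < m - i)
  rcases le_total i (m - i) with h | h
  · rw [max_eq_right h, max_eq_right]
    apply Real.log_le_log h0
    exact_mod_cast h
  · rw [max_eq_left h, max_eq_left]
    apply Real.log_le_log h1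
    exact_mod_cast h

lemma N1 (c K : ℝ) (hc : 0 < c) (m : ℕ) (hm : 100 ≤ m) (hD : 2 * c * DD m ≤ 1 + 1 / 4000)
    (hx : 3 ≤ Real.log m) :
    c * Real.log m ^ 2 - K ≤ 1 + ∑ i ∈ Ico 1 m, splitProb m i * WW c K i (m - i) := by
  have hH := hh_pos (show 2 ≤ m by omega)
  set x := Real.log m with hxdef
  have hlog2 : Real.log 2 < 0.6931471808 := Real.log_two_lt_d9
  have key : ∀ i ∈ Ico 1 m, splitProb m i * (c * x ^ 2 - K) - 2 * c * x * (splitProb m i * zz m i) +
      1 / 25 * (x - Real.log 2) * (splitProb m i * tent (Real.log i - Real.log (m - i : ℕ))) ≤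
      splitProb m i * WW c K i (m - i) := by
    intro i hi
    have hi' := mem_Ico.mp hi
    have hq := splitProb_nonneg (m := m) (i := i) hi'.2.le
    have hz0 := zz_nonneg hi
    have hz1 := zz_le_log_two hi
    have ht := tent_nonneg (Real.log i - Real.log (m - i : ℕ))
    have h1 : c * x ^ 2 - K - 2 * c * x * zz m i +
        1 / 25 * (x - Real.log 2) * tent (Real.log i - Real.log (m - i : ℕ)) ≤
        WW c K i (m - i) := by
      unfold WW
      rw [log_max_eq hi, ← hxdef]
      have h2 : (x - Real.log 2) * tent (Real.log i - Real.log (m - i : ℕ)) ≤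
          (x - zz m i) * tent (Real.log i - Real.log (m - i : ℕ)) :=
        mul_le_mul_of_nonneg_right (by linarith) ht
      have h3 : 0 ≤ c * zz m i ^ 2 := by positivity
      nlinarith
    have h2 := mul_le_mul_of_nonneg_left h1 hq
    linarith
  have hsum := sum_le_sum key
  rw [sum_add_distrib, sum_sub_distrib, ← sum_mul, sum_splitProb_Ico (by omega), ← mul_sum,
    ← mul_sum, sum_zz (by omega)] at hsum
  change 1 * (c * x ^ 2 - K) - 2 * c * x * (DD m / hh m) + _ ≤ _ at hsum
  have htent : 1 / 100 / hh m ≤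
      ∑ i ∈ Ico 1 m, splitProb m i * tent (Real.log i - Real.log (m - i : ℕ)) := by
    rw [div_le_iff₀ hH, sum_mul]
    refine (tent_gain hm).trans (le_of_eq ?_)
    apply sum_congr rfl
    intro i _
    ring
  have h1 : 1 / 25 * (x - Real.log 2) * (1 / 100 / hh m) ≤ 1 / 25 * (x - Real.log 2) *
      ∑ i ∈ Ico 1 m, splitProb m i * tent (Real.log i - Real.log (m - i : ℕ)) := by
    apply mul_le_mul_of_nonneg_left htent
    have : 0 ≤ x - Real.log 2 := by linarith
    positivity
  have hlx : x ≤ hh m := log_le_hh (by omega)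
  have h2 : 2 * c * x * (DD m / hh m) ≤ 1 + 1 / 25 * (x - Real.log 2) * (1 / 100 / hh m) := by
    have h3 : 2 * c * x * (DD m / hh m) = (2 * c * DD m) * x / hh m := by ring
    have h4 : 1 + 1 / 25 * (x - Real.log 2) * (1 / 100 / hh m) =
        (hh m + 1 / 2500 * (x - Real.log 2)) / hh m := by
      field_simp
      ring
    rw [h3, h4]
    apply div_le_div_of_nonneg_right _ hH.le
    have h5 : (2 * c * DD m) * x ≤ (1 + 1 / 4000) * x :=
      mul_le_mul_of_nonneg_right hD (by linarith)
    linarith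
  linarith

lemma N2 (c K : ℝ) (hc : 0 < c) (hc1 : c < 61 / 100) (hc2 : 3 / 5 < c) (a b : ℕ) (hba : b ≤ a)
    (hb : 100 ≤ b)
    (hu : Real.log a - Real.log b < 1 / 4)
    (hDa : 2 * c * DD a ≤ 1 + 1 / 1000) (hDb : 2 * c * DD b ≤ 1 + 1 / 1000)
    (hy : 10000 ≤ Real.log b) :
    WW c K a b ≤ 1 + ∑ i ∈ Ico 1 a, ∑ j ∈ Ico 1 b, splitProb a i * splitProb b j *
      WW c K (max i (a - i)) (max j (b - j)) := by
  have hHa := hh_pos (show 2 ≤ a by omega)
  have hHb := hh_pos (show 2 ≤ b by omega)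
  set x := Real.log a with hxdef
  set y := Real.log b with hydef
  have hb0 : (0 : ℝ) < b := by exact_mod_cast (by omega : 0 < b)
  have hyx : y ≤ x := Real.log_le_log hb0 (by exact_mod_cast hba)
  set u := x - y with hudef
  have hu0 : 0 ≤ u := by rw [hudef]; linarith
  have hx0 : 0 ≤ x := by linarith
  have key : ∀ i ∈ Ico 1 a, ∀ j ∈ Ico 1 b,
      WW c K a b - (2 * c * x * (min (zz a i) u + Real.sqrt (zz a i) * Real.sqrt (zz b j)) +
        1 / 25 * x * (zz a i + zz b j) + 1 / 100 * zz a i) ≤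
      WW c K (max i (a - i)) (max j (b - j)) := by
    intro i hi j hj
    have hz0 := zz_nonneg hi
    have he0 := zz_nonneg hj
    have hla : Real.log (max i (a - i) : ℕ) = x - zz a i := by unfold zz; ring
    have hlb : Real.log (max j (b - j) : ℕ) = y - zz b j := by unfold zz; ring
    unfold WW
    rw [hla, hlb, ← hxdef, ← hydef, max_eq_left hyx]
    set ζ := zz a i with hζ
    set η := zz b j with hη
    set M' := max (x - ζ) (y - η) with hM'
    have hM1 : x - ζ ≤ M' := le_max_left _ _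
    have hM2 : y - η ≤ M' := le_max_right _ _
    have hmu : x - (min ζ u + Real.sqrt ζ * Real.sqrt η) ≤ M' := by
      have hs : 0 ≤ Real.sqrt ζ * Real.sqrt η := by positivity
      rcases le_total ζ u with h | h
      · rw [min_eq_left h]; linarith
      · rw [min_eq_right h]
        rcases le_total ζ η with h' | h'
        · have : ζ ≤ Real.sqrt ζ * Real.sqrt η := by
            calc ζ = Real.sqrt ζ * Real.sqrt ζ := (Real.mul_self_sqrt hz0).symm
              _ ≤ Real.sqrt ζ * Real.sqrt η :=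
                mul_le_mul_of_nonneg_left (Real.sqrt_le_sqrt h') (Real.sqrt_nonneg _)
          linarith
        · have : η ≤ Real.sqrt ζ * Real.sqrt η := by
            calc η = Real.sqrt η * Real.sqrt η := (Real.mul_self_sqrt he0).symm
              _ ≤ Real.sqrt ζ * Real.sqrt η :=
                mul_le_mul_of_nonneg_right (Real.sqrt_le_sqrt h') (Real.sqrt_nonneg _)
          rw [hudef]
          linarith
    have hsq : x ^ 2 - 2 * x * (min ζ u + Real.sqrt ζ * Real.sqrt η) ≤ M' ^ 2 := by
      have h1 : 0 ≤ (M' - x) ^ 2 := sq_nonneg _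
      have h2 : 2 * x * (x - (min ζ u + Real.sqrt ζ * Real.sqrt η)) ≤ 2 * x * M' :=
        mul_le_mul_of_nonneg_left hmu (by linarith)
      nlinarith
    have htl := tent_lipschitz (x - y) (x - ζ - (y - η))
    have hab : |x - y - (x - ζ - (y - η))| ≤ ζ + η := by
      rw [abs_le]
      constructor <;> linarith
    have ht0 := tent_nonneg (x - ζ - (y - η))
    have ht1 := tent_le (x - ζ - (y - η))
    have h3 : x * tent (x - y) - x * (ζ + η) - 1 / 4 * ζ ≤ M' * tent (x - ζ - (y - η)) := by
      have h4 : x * (tent (x - y) - (ζ + η)) ≤ x * tent (x - ζ - (y - η)) :=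
        mul_le_mul_of_nonneg_left (by linarith) hx0
      have h5 : (x - ζ) * tent (x - ζ - (y - η)) ≤ M' * tent (x - ζ - (y - η)) :=
        mul_le_mul_of_nonneg_right hM1 ht0
      have h6 : ζ * tent (x - ζ - (y - η)) ≤ ζ * (1 / 4) := mul_le_mul_of_nonneg_left ht1 hz0
      nlinarith
    have h7 : c * (x ^ 2 - 2 * x * (min ζ u + Real.sqrt ζ * Real.sqrt η)) ≤ c * M' ^ 2 :=
      mul_le_mul_of_nonneg_left hsq hc.le
    nlinarith
  -- sum up
  have hqa : ∀ i ∈ Ico 1 a, 0 ≤ splitProb a i := fun i hi =>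
    splitProb_nonneg (mem_Ico.mp hi).2.le
  have hqb : ∀ j ∈ Ico 1 b, 0 ≤ splitProb b j := fun j hj =>
    splitProb_nonneg (mem_Ico.mp hj).2.le
  have hS1 : ∑ i ∈ Ico 1 a, splitProb a i = 1 := sum_splitProb_Ico (by omega)
  have hS2 : ∑ j ∈ Ico 1 b, splitProb b j = 1 := sum_splitProb_Ico (by omega)
  have hsum : ∑ i ∈ Ico 1 a, ∑ j ∈ Ico 1 b, splitProb a i * splitProb b j *
      (WW c K a b - (2 * c * x * (min (zz a i) u + Real.sqrt (zz a i) * Real.sqrt (zz b j)) +
        1 / 25 * x * (zz a i + zz b j) + 1 / 100 * zz a i)) ≤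
      ∑ i ∈ Ico 1 a, ∑ j ∈ Ico 1 b, splitProb a i * splitProb b j *
      WW c K (max i (a - i)) (max j (b - j)) := by
    apply sum_le_sum
    intro i hi
    apply sum_le_sum
    intro j hj
    exact mul_le_mul_of_nonneg_left (key i hi j hj) (mul_nonneg (hqa i hi) (hqb j hj))
  -- evaluate the left side
  set A := ∑ i ∈ Ico 1 a, splitProb a i * min (zz a i) u with hA
  set Sa := ∑ i ∈ Ico 1 a, splitProb a i * Real.sqrt (zz a i) with hSa
  set Sb := ∑ j ∈ Ico 1 b, splitProb b j * Real.sqrt (zz b j) with hSb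
  set Za := ∑ i ∈ Ico 1 a, splitProb a i * zz a i with hZa
  set Zb := ∑ j ∈ Ico 1 b, splitProb b j * zz b j with hZb
  have heval : ∑ i ∈ Ico 1 a, ∑ j ∈ Ico 1 b, splitProb a i * splitProb b j *
      (WW c K a b - (2 * c * x * (min (zz a i) u + Real.sqrt (zz a i) * Real.sqrt (zz b j)) +
        1 / 25 * x * (zz a i + zz b j) + 1 / 100 * zz a i)) =
      WW c K a b - (2 * c * x * (A + Sa * Sb) + 1 / 25 * x * (Za + Zb) + 1 / 100 * Za) := by
    have hinner : ∀ i ∈ Ico 1 a, ∑ j ∈ Ico 1 b, splitProb a i * splitProb b j *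
        (WW c K a b - (2 * c * x * (min (zz a i) u + Real.sqrt (zz a i) * Real.sqrt (zz b j)) +
        1 / 25 * x * (zz a i + zz b j) + 1 / 100 * zz a i)) =
        splitProb a i * (WW c K a b) - 2 * c * x * (splitProb a i * min (zz a i) u) -
        2 * c * x * (splitProb a i * Real.sqrt (zz a i) * Sb) -
        1 / 25 * x * (splitProb a i * zz a i) - 1 / 25 * x * (splitProb a i * Zb) -
        1 / 100 * (splitProb a i * zz a i) := by
      intro i _
      have hj : ∀ j ∈ Ico 1 b, splitProb a i * splitProb b j *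
          (WW c K a b - (2 * c * x * (min (zz a i) u + Real.sqrt (zz a i) * Real.sqrt (zz b j)) +
          1 / 25 * x * (zz a i + zz b j) + 1 / 100 * zz a i)) =
          splitProb b j * (splitProb a i * (WW c K a b) -
            2 * c * x * (splitProb a i * min (zz a i) u) -
            1 / 25 * x * (splitProb a i * zz a i) - 1 / 100 * (splitProb a i * zz a i)) -
          2 * c * x * splitProb a i * Real.sqrt (zz a i) * (splitProb b j * Real.sqrt (zz b j)) -
          1 / 25 * x * splitProb a i * (splitProb b j * zz b j) := by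
        intro j _
        ring
      rw [sum_congr rfl hj, sum_sub_distrib, sum_sub_distrib, ← sum_mul, ← mul_sum, ← mul_sum, hS2]
      ring
    rw [sum_congr rfl hinner]
    simp only [sum_sub_distrib, ← mul_sum, ← sum_mul, hS1]
    ring
  rw [heval] at hsum
  -- bounds
  have hxa : x ≤ hh a := log_le_hh (by omega)
  have hyb : y ≤ hh b := log_le_hh (by omega)
  have hy0 : 0 < y := by linarith
  have hx1 : 0 < x := by linarith
  have hZa' : Za = DD a / hh a := sum_zz (by omega)
  have hZb' : Zb = DD b / hh b := sum_zz (by omega)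
  have hDa0 : 0 ≤ DD a := by
    have : 0 ≤ Za := sum_nonneg fun i hi => mul_nonneg (hqa i hi) (zz_nonneg hi)
    rw [hZa'] at this
    by_contra hcon
    push Not at hcon
    have := div_neg_of_neg_of_pos hcon hHa
    linarith
  have hDb0 : 0 ≤ DD b := by
    have : 0 ≤ Zb := sum_nonneg fun j hj => mul_nonneg (hqb j hj) (zz_nonneg hj)
    rw [hZb'] at this
    by_contra hcon
    push Not at hcon
    have := div_neg_of_neg_of_pos hcon hHb
    linarith
  have hA0 : 0 ≤ A := sum_nonneg fun i hi =>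
    mul_nonneg (hqa i hi) (le_min (zz_nonneg hi) hu0)
  have hA1 : hh a * A ≤ DD a - 7 / 100 := by
    refine le_trans (le_of_eq ?_) (trunc_drift (a := a) (by omega) (u := u) hu.le)
    rw [hA, mul_sum]
    apply sum_congr rfl
    intro i _
    ring
  have hxA : x * A ≤ DD a - 7 / 100 :=
    (mul_le_mul_of_nonneg_right hxa hA0).trans hA1
  have hSa0 : 0 ≤ Sa := sum_nonneg fun i hi => mul_nonneg (hqa i hi) (Real.sqrt_nonneg _)
  have hSb0 : 0 ≤ Sb := sum_nonneg fun i hi => mul_nonneg (hqb i hi) (Real.sqrt_nonneg _)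
  have hSa1 : hh a * Sa ≤ 6 := by
    refine le_trans (le_of_eq ?_) (sum_sqrt_zz (a := a) (by omega))
    rw [hSa, mul_sum]
    apply sum_congr rfl
    intro i _
    ring
  have hSb1 : hh b * Sb ≤ 6 := by
    refine le_trans (le_of_eq ?_) (sum_sqrt_zz (a := b) (by omega))
    rw [hSb, mul_sum]
    apply sum_congr rfl
    intro i _
    ring
  have hxSa : x * Sa ≤ 6 := (mul_le_mul_of_nonneg_right hxa hSa0).trans hSa1
  have hSb2 : Sb ≤ 6 / 10000 := by
    have : y * Sb ≤ 6 := (mul_le_mul_of_nonneg_right hyb hSb0).trans hSb1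
    rw [le_div_iff₀ (by norm_num)]
    nlinarith
  have hxSS : x * (Sa * Sb) ≤ 36 / 10000 := by
    calc x * (Sa * Sb) = (x * Sa) * Sb := by ring
      _ ≤ 6 * (6 / 10000) := mul_le_mul hxSa hSb2 hSb0 (by norm_num)
      _ = 36 / 10000 := by norm_num
  have hZa0 : 0 ≤ Za := by rw [hZa']; positivity
  have hZb0 : 0 ≤ Zb := by rw [hZb']; positivity
  have hxZa : x * Za ≤ DD a := by
    have h1 : hh a * Za = DD a := by rw [hZa']; field_simp
    rw [← h1]
    exact mul_le_mul_of_nonneg_right hxa hZa0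
  have hyZb : y * Zb ≤ DD b := by
    have h1 : hh b * Zb = DD b := by rw [hZb']; field_simp
    rw [← h1]
    exact mul_le_mul_of_nonneg_right hyb hZb0
  have hxZb : x * Zb ≤ DD b * (1 + 1 / 10000) := by
    have h1 : x ≤ y * (1 + 1 / 10000) := by
      have : x < y + 1 / 4 := by linarith
      nlinarith
    calc x * Zb ≤ (y * (1 + 1 / 10000)) * Zb := mul_le_mul_of_nonneg_right h1 hZb0
      _ = (y * Zb) * (1 + 1 / 10000) := by ring
      _ ≤ DD b * (1 + 1 / 10000) := mul_le_mul_of_nonneg_right hyZb (by norm_num)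
  have hDa1 : DD a ≤ 84 / 100 := by
    have : 2 * (3 / 5) * DD a ≤ 2 * c * DD a :=
      mul_le_mul_of_nonneg_right (by linarith) hDa0
    linarith
  have hDb1 : DD b ≤ 84 / 100 := by
    have : 2 * (3 / 5) * DD b ≤ 2 * c * DD b :=
      mul_le_mul_of_nonneg_right (by linarith) hDb0
    linarith
  have hZa3 : Za ≤ 1 / 10000 := by
    have : y * Za ≤ x * Za := mul_le_mul_of_nonneg_right hyx hZa0
    nlinarith
  have htotal : 2 * c * x * (A + Sa * Sb) + 1 / 25 * x * (Za + Zb) + 1 / 100 * Za ≤ 1 := by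
    have e1 : 2 * c * x * (A + Sa * Sb) = 2 * c * (x * A) + 2 * c * (x * (Sa * Sb)) := by ring
    have e2 : 1 / 25 * x * (Za + Zb) = 1 / 25 * (x * Za) + 1 / 25 * (x * Zb) := by ring
    rw [e1, e2]
    have h1 : 2 * c * (x * A) ≤ 2 * c * (DD a - 7 / 100) :=
      mul_le_mul_of_nonneg_left hxA (by linarith)
    have h2 : 2 * c * (x * (Sa * Sb)) ≤ 2 * c * (36 / 10000) :=
      mul_le_mul_of_nonneg_left hxSS (by linarith)
    nlinarith
  linarith

end Pool.Agent.Lib.MP_ce738d_pr
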