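import Pool.Agent.Lib.MP_ce738d_pr.Defs

open Finset

namespace Pool.Agent.Lib.MP_ce738d_pr

open BinaryTree

/-- The explicit probability of a tree. -/
noncomputable def treeProb : BinaryTree Unit → ℝ
  | nil => 1
  | node _ l r => splitProb (l.numLeaves + r.numLeaves) l.numLeaves * treeProb l * treeProb r

lemma treeProb_nonneg (t : BinaryTree Unit) : 0 ≤ treeProb t := by
  induction t with
  | nil => simp [treeProb]
  | node _ l r hl hr =>
    simp only [treeProb]
    have := splitProb_nonneg (m := l.numLeaves + r.numLeaves) (i := l.numLeaves) (by omega)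
    positivity

lemma dtcs_succ_succ (k : ℕ) : dtcs (k + 2) = (splitPMF k).bind fun i : Fin (k + 1) =>
      (dtcs (i + 1)).bind fun l => (dtcs (k + 1 - i)).map fun r => node () l r := by
  rw [dtcs]

lemma dtcs_apply (n : ℕ) (hn : 1 ≤ n) (t : BinaryTree Unit) :
    dtcs n t = if t.numLeaves = n then ENNReal.ofReal (treeProb t) else 0 := by
  induction n using Nat.strong_induction_on generalizing t with
  | _ n ih =>
    match n, hn with
    | 1, _ =>
      rw [dtcs]
      cases t with
      | nil => simp [treeProb]
      | node _ l r =>
        have h1 := numLeaves_pos l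
        have h2 := numLeaves_pos r
        simp only [PMF.pure_apply, numLeaves]
        rw [if_neg (by simp), if_neg (by omega)]
    | (k + 2), _ =>
      rw [dtcs_succ_succ]
      simp only [PMF.bind_apply, tsum_fintype, PMF.map_apply]
      cases t with
      | nil =>
        simp [numLeaves]
      | node u l r =>
        obtain rfl : u = () := rfl
        simp only [numLeaves, node.injEq, true_and]
        -- inner sums
        have inner : ∀ (i : Fin (k + 1)),
            (∑' a, (dtcs (i + 1)) a * ∑' a_1, if l = a ∧ r = a_1 then (dtcs (k + 1 - i)) a_1 else 0)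
              = dtcs (i + 1) l * dtcs (k + 1 - i) r := by
          intro i
          rw [tsum_eq_single l]
          · congr 1
            rw [tsum_eq_single r]
            · simp
            · intro b hb
              rw [if_neg]
              rintro ⟨-, h⟩
              exact hb h.symm
          · intro b hb
            have : ∀ a_1, (if l = b ∧ r = a_1 then (dtcs (k + 1 - i)) a_1 else 0) = 0 := by
              intro a
              rw [if_neg]
              rintro ⟨h, -⟩
              exact hb h.symm
            simp [this]
        simp only [inner]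
        have h1 := numLeaves_pos l
        have h2 := numLeaves_pos r
        have hval : ∀ i : Fin (k + 1), dtcs (i + 1) l * dtcs (k + 1 - i) r =
            if l.numLeaves = i + 1 ∧ l.numLeaves + r.numLeaves = k + 2 then
              ENNReal.ofReal (treeProb l) * ENNReal.ofReal (treeProb r) else 0 := by
          intro i
          have hi := i.2
          rw [ih (i + 1) (by omega) (by omega) l, ih (k + 1 - i) (by omega) (by omega) r]
          by_cases ha : l.numLeaves = i + 1
          · by_cases hb : r.numLeaves = k + 1 - i
            · rw [if_pos ha, if_pos hb, if_pos ⟨ha, by omega⟩]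
            · rw [if_neg hb, mul_zero, if_neg]
              rintro ⟨_, h⟩
              omega
          · rw [if_neg ha, zero_mul, if_neg]
            rintro ⟨h, _⟩
            exact ha h
        simp only [hval]
        by_cases hlr : l.numLeaves + r.numLeaves = k + 2
        · rw [if_pos hlr]
          rw [Finset.sum_eq_single (⟨l.numLeaves - 1, by omega⟩ : Fin (k + 1))]
          · have h3 : l.numLeaves - 1 + 1 = l.numLeaves := by omega
            simp only [splitPMF, PMF.ofFintype_apply, h3, hlr, and_self, if_true]
            rw [treeProb, hlr]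
            rw [← ENNReal.ofReal_mul (treeProb_nonneg l), ← ENNReal.ofReal_mul]
            · congr 1
              ring
            · apply splitProb_nonneg
              omega
          · intro b _ hb
            rw [if_neg, mul_zero]
            rintro ⟨h, _⟩
            apply hb
            apply Fin.ext
            simp
            omega
          · intro h
            exact absurd (Finset.mem_univ _) h
        · rw [if_neg hlr]
          apply Finset.sum_eq_zero
          intro i _
          rw [if_neg, mul_zero]
          rintro ⟨_, h⟩
          exact hlr h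

/-- Finite-sum form of the expectation. -/
noncomputable def fexp (n : ℕ) (f : BinaryTree Unit → ℝ) : ℝ :=
  ∑ t ∈ treesOfNumNodesEq (n - 1), treeProb t * f t

lemma expect_eq_fexp (n : ℕ) (hn : 1 ≤ n) (f : BinaryTree Unit → ℝ) :
    expect n f = fexp n f := by
  unfold expect fexp
  rw [tsum_eq_sum (s := treesOfNumNodesEq (n - 1))]
  · apply Finset.sum_congr rfl
    intro t ht
    rw [mem_treesOfNumNodesEq] at ht
    rw [dtcs_apply n hn t, if_pos (by rw [numLeaves_eq_numNodes_succ]; omega),
      ENNReal.toReal_ofReal (treeProb_nonneg t)]
  · intro t ht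
    rw [mem_treesOfNumNodesEq] at ht
    rw [dtcs_apply n hn t, if_neg (by rw [numLeaves_eq_numNodes_succ]; omega)]
    simp

lemma fexp_one (f : BinaryTree Unit → ℝ) : fexp 1 f = f nil := by
  simp [fexp, treeProb]

lemma fexp_succ_succ (k : ℕ) (f : BinaryTree Unit → ℝ) :
    fexp (k + 2) f = ∑ i ∈ range (k + 1), splitProb (k + 2) (i + 1) *
      fexp (i + 1) (fun l => fexp (k + 1 - i) (fun r => f (node () l r))) := by
  unfold fexp
  have h0 : k + 2 - 1 = k + 1 := by omega
  rw [h0, treesOfNumNodesEq_succ]
  rw [Finset.sum_biUnion]
  · rw [Finset.Nat.sum_antidiagonal_eq_sum_range_succ_mk]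
    apply Finset.sum_congr rfl
    intro i hi
    have hik : i ≤ k := by
      have := Finset.mem_range.mp hi
      omega
    rw [Finset.sum_map, Finset.sum_product, Finset.mul_sum]
    have h1 : i + 1 - 1 = i := by omega
    have h2 : k + 1 - i - 1 = k - i := by omega
    simp only [h1, h2]
    apply Finset.sum_congr rfl
    intro l hl
    rw [Finset.mul_sum, Finset.mul_sum]
    apply Finset.sum_congr rfl
    intro r hr
    rw [mem_treesOfNumNodesEq] at hl hr
    simp only [Function.Embedding.coeFn_mk, treeProb]
    have h3 : l.numLeaves = i + 1 := by rw [numLeaves_eq_numNodes_succ, hl]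
    have h4 : r.numLeaves = k - i + 1 := by rw [numLeaves_eq_numNodes_succ, hr]
    have h5 : l.numLeaves + r.numLeaves = k + 2 := by omega
    rw [h5, h3]
    ring
  · intro a _ b _ hab
    simp only [Function.onFun]
    rw [Finset.disjoint_left]
    intro t ht1 ht2
    simp only [Finset.mem_map, Finset.mem_product, mem_treesOfNumNodesEq,
      Function.Embedding.coeFn_mk, Prod.exists] at ht1 ht2
    obtain ⟨l, r, ⟨h1, h2⟩, rfl⟩ := ht1
    obtain ⟨l', r', ⟨h3, h4⟩, h5⟩ := ht2
    simp only [node.injEq, true_and] at h5
    obtain ⟨rfl, rfl⟩ := h5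
    apply hab
    ext <;> omega

lemma fexp_add (n : ℕ) (f g : BinaryTree Unit → ℝ) :
    fexp n (fun t => f t + g t) = fexp n f + fexp n g := by
  simp [fexp, mul_add, Finset.sum_add_distrib]

lemma fexp_const_mul (n : ℕ) (c : ℝ) (f : BinaryTree Unit → ℝ) :
    fexp n (fun t => c * f t) = c * fexp n f := by
  simp only [fexp, Finset.mul_sum]
  apply Finset.sum_congr rfl
  intro t _
  ring

lemma fexp_mono (n : ℕ) (hn : 1 ≤ n) (f g : BinaryTree Unit → ℝ)
    (h : ∀ t : BinaryTree Unit, t.numLeaves = n → f t ≤ g t) :
    fexp n f ≤ fexp n g := by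
  unfold fexp
  apply Finset.sum_le_sum
  intro t ht
  rw [mem_treesOfNumNodesEq] at ht
  apply mul_le_mul_of_nonneg_left _ (treeProb_nonneg t)
  apply h
  rw [numLeaves_eq_numNodes_succ]
  omega

lemma fexp_congr (n : ℕ) (hn : 1 ≤ n) (f g : BinaryTree Unit → ℝ)
    (h : ∀ t : BinaryTree Unit, t.numLeaves = n → f t = g t) :
    fexp n f = fexp n g :=
  le_antisymm (fexp_mono n hn f g fun t ht => (h t ht).le)
    (fexp_mono n hn g f fun t ht => (h t ht).ge)

lemma fexp_const (n : ℕ) (hn : 1 ≤ n) (c : ℝ) : fexp n (fun _ => c) = c := by
  induction n using Nat.strong_induction_on generalizing c with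
  | _ n ih =>
    match n, hn with
    | 1, _ => simp [fexp_one]
    | (k + 2), _ =>
      rw [fexp_succ_succ]
      have : ∀ i ∈ range (k + 1), splitProb (k + 2) (i + 1) *
          fexp (i + 1) (fun l => fexp (k + 1 - i) (fun r => c)) =
          splitProb (k + 2) (i + 1) * c := by
        intro i hi
        have hik := Finset.mem_range.mp hi
        rw [ih (k + 1 - i) (by omega) (by omega), ih (i + 1) (by omega) (by omega)]
      rw [Finset.sum_congr rfl this, ← Finset.sum_mul, sum_splitProb, one_mul]

/-- Total mass one (sanity). -/
lemma fexp_one_eq (n : ℕ) (hn : 1 ≤ n) : fexp n (fun _ => 1) = 1 := fexp_const n hn 1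

end Pool.Agent.Lib.MP_ce738d_pr
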