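import Pool.Agent.Lib.MP_ce738d_pr.Rec

open Finset Filter Topology

namespace Pool.Agent.Lib.MP_ce738d_pr

lemma pow_diff_bounds (k : ℕ) (x : ℝ) (hx : 0 ≤ x) :
    ((k : ℝ) + 1) * x ^ k ≤ (x + 1) ^ (k + 1) - x ^ (k + 1) ∧
    (x + 1) ^ (k + 1) - x ^ (k + 1) ≤ ((k : ℝ) + 1) * (x + 1) ^ k := by
  have h := Commute.geom_sum₂_mul (Commute.all (x + 1) x) (k + 1)
  have h1 : x + 1 - x = 1 := by ring
  rw [h1, mul_one] at h
  rw [← h]
  have hle : ∀ i ∈ range (k + 1), x ^ k ≤ (x + 1) ^ i * x ^ (k + 1 - 1 - i) ∧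
      (x + 1) ^ i * x ^ (k + 1 - 1 - i) ≤ (x + 1) ^ k := by
    intro i hi
    have hi' := mem_range.mp hi
    have e1 : x ^ k = x ^ i * x ^ (k + 1 - 1 - i) := by
      rw [← pow_add]; congr 1; omega
    have e2 : (x + 1) ^ k = (x + 1) ^ i * (x + 1) ^ (k + 1 - 1 - i) := by
      rw [← pow_add]; congr 1; omega
    constructor
    · rw [e1]
      apply mul_le_mul_of_nonneg_right _ (by positivity)
      exact pow_le_pow_left₀ hx (by linarith) i
    · rw [e2]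
      apply mul_le_mul_of_nonneg_left _ (by positivity)
      exact pow_le_pow_left₀ hx (by linarith) _
  constructor
  · calc ((k : ℝ) + 1) * x ^ k = ∑ i ∈ range (k + 1), x ^ k := by
          rw [sum_const, card_range]; simp
      _ ≤ _ := sum_le_sum fun i hi => (hle i hi).1
  · calc _ ≤ ∑ i ∈ range (k + 1), (x + 1) ^ k := sum_le_sum fun i hi => (hle i hi).2
      _ = ((k : ℝ) + 1) * (x + 1) ^ k := by
          rw [sum_const, card_range]; simp

/-- Riemann sum of `x^k`. -/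
lemma sum_pow_upper (k m : ℕ) :
    ((k : ℝ) + 1) * ∑ i ∈ range m, (i : ℝ) ^ k ≤ (m : ℝ) ^ (k + 1) := by
  induction m with
  | zero => simp
  | succ m ih =>
    rw [sum_range_succ, mul_add]
    have := (pow_diff_bounds k m (by positivity)).1
    push_cast
    linarith

lemma sum_pow_lower (k m : ℕ) :
    (m : ℝ) ^ (k + 1) ≤ ((k : ℝ) + 1) * ∑ i ∈ range (m + 1), (i : ℝ) ^ k := by
  induction m with
  | zero => simp; positivity
  | succ m ih =>
    rw [sum_range_succ, mul_add]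
    have := (pow_diff_bounds k m (by positivity)).2
    push_cast
    linarith

/-- `f_k(m) = (1/(k+1)) * (1/m) * ∑_{1 ≤ i < m} (i/m)^k` -/
noncomputable def fk (m k : ℕ) : ℝ :=
  ∑ i ∈ Ico 1 m, (1 / (i : ℝ)) * ((i : ℝ) / m) ^ (k + 1) / ((k : ℝ) + 1)

lemma fk_eq (m k : ℕ) (hm : 1 ≤ m) :
    fk m k = (1 / ((k : ℝ) + 1)) * (1 / (m : ℝ) ^ (k + 1)) * ∑ i ∈ Ico 1 m, (i : ℝ) ^ k := by
  unfold fk
  rw [mul_sum]
  apply sum_congr rfl
  intro i hi
  have hi' := mem_Ico.mp hi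
  have h1 : (0 : ℝ) < i := by exact_mod_cast hi'.1
  have h2 : (0 : ℝ) < m := by exact_mod_cast hm
  rw [div_pow, pow_succ (i : ℝ) k]
  field_simp

lemma fk_nonneg (m k : ℕ) : 0 ≤ fk m k := by
  unfold fk
  apply sum_nonneg
  intro i _
  positivity

lemma fk_le (m k : ℕ) (hm : 1 ≤ m) : fk m k ≤ 1 / ((k : ℝ) + 1) ^ 2 := by
  rw [fk_eq m k hm]
  have h2 : (0 : ℝ) < m := by exact_mod_cast hm
  have h3 : ∑ i ∈ Ico 1 m, (i : ℝ) ^ k ≤ ∑ i ∈ range m, (i : ℝ) ^ k := by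
    apply sum_le_sum_of_subset_of_nonneg
    · intro i hi
      rw [mem_Ico] at hi
      exact mem_range.mpr hi.2
    · intro i _ _
      positivity
  have h4 := sum_pow_upper k m
  have h5 : ∑ i ∈ range m, (i : ℝ) ^ k ≤ (m : ℝ) ^ (k + 1) / ((k : ℝ) + 1) := by
    rw [le_div_iff₀ (by positivity)]
    linarith
  calc (1 / ((k : ℝ) + 1)) * (1 / (m : ℝ) ^ (k + 1)) * ∑ i ∈ Ico 1 m, (i : ℝ) ^ k
      ≤ (1 / ((k : ℝ) + 1)) * (1 / (m : ℝ) ^ (k + 1)) * ((m : ℝ) ^ (k + 1) / ((k : ℝ) + 1)) := by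
        apply mul_le_mul_of_nonneg_left (h3.trans h5)
        positivity
    _ = 1 / ((k : ℝ) + 1) ^ 2 := by field_simp

lemma fk_ge (m k : ℕ) (hm : 1 ≤ m) : 1 / ((k : ℝ) + 1) ^ 2 - 2 / m ≤ fk m k := by
  rw [fk_eq m k hm]
  have h2 : (0 : ℝ) < m := by exact_mod_cast hm
  have h4 := sum_pow_lower k m
  have h3 : ∑ i ∈ range (m + 1), (i : ℝ) ^ k ≤ 1 + ∑ i ∈ Ico 1 m, (i : ℝ) ^ k + (m : ℝ) ^ k := by
    rw [sum_range_succ]
    have : range m = insert 0 (Ico 1 m) := by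
      ext i
      simp only [mem_range, mem_insert, mem_Ico]
      omega
    rw [this, sum_insert (by simp)]
    have h0 : ((0 : ℕ) : ℝ) ^ k ≤ 1 := by
      rcases Nat.eq_zero_or_pos k with h | h
      · subst h; simp
      · rw [Nat.cast_zero, zero_pow (by omega)]; norm_num
    linarith
  have h5 : (m : ℝ) ^ (k + 1) / ((k : ℝ) + 1) - 2 * (m : ℝ) ^ k ≤ ∑ i ∈ Ico 1 m, (i : ℝ) ^ k := by
    have h6 : (m : ℝ) ^ (k + 1) / ((k : ℝ) + 1) ≤ ∑ i ∈ range (m + 1), (i : ℝ) ^ k := by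
      rw [div_le_iff₀ (by positivity)]
      linarith
    have h7 : (1 : ℝ) ≤ (m : ℝ) ^ k := one_le_pow₀ (by exact_mod_cast hm)
    linarith
  have h8 : (1 / ((k : ℝ) + 1)) * (1 / (m : ℝ) ^ (k + 1)) *
      ((m : ℝ) ^ (k + 1) / ((k : ℝ) + 1) - 2 * (m : ℝ) ^ k) ≤
      (1 / ((k : ℝ) + 1)) * (1 / (m : ℝ) ^ (k + 1)) * ∑ i ∈ Ico 1 m, (i : ℝ) ^ k := by
    apply mul_le_mul_of_nonneg_left h5
    positivity
  refine le_trans ?_ h8
  have h9 : (1 / ((k : ℝ) + 1)) * (1 / (m : ℝ) ^ (k + 1)) *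
      ((m : ℝ) ^ (k + 1) / ((k : ℝ) + 1) - 2 * (m : ℝ) ^ k) =
      1 / ((k : ℝ) + 1) ^ 2 - (1 / ((k : ℝ) + 1)) * (2 / m) := by
    rw [pow_succ (m : ℝ) k]
    field_simp
  rw [h9]
  have h10 : (1 / ((k : ℝ) + 1)) * (2 / m) ≤ 1 * (2 / m) := by
    apply mul_le_mul_of_nonneg_right _ (by positivity)
    rw [div_le_one (by positivity)]
    have : (0 : ℝ) ≤ k := by positivity
    linarith
  linarith

lemma fk_tendsto (k : ℕ) : Tendsto (fun m => fk m k) atTop (𝓝 (1 / ((k : ℝ) + 1) ^ 2)) := by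
  have h1 : Tendsto (fun m : ℕ => 1 / ((k : ℝ) + 1) ^ 2 - 2 / (m : ℝ)) atTop
      (𝓝 (1 / ((k : ℝ) + 1) ^ 2 - 0)) := by
    apply Tendsto.sub tendsto_const_nhds
    exact tendsto_const_div_atTop_nhds_zero_nat 2
  rw [sub_zero] at h1
  apply tendsto_of_tendsto_of_tendsto_of_le_of_le' h1 tendsto_const_nhds
  · filter_upwards [eventually_ge_atTop 1] with m hm
    exact fk_ge m k hm
  · filter_upwards [eventually_ge_atTop 1] with m hm
    exact fk_le m k hm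

/-- The sum in reflected form. -/
lemma DU_eq (m : ℕ) (hm : 2 ≤ m) : Dm pU (fun _ i => i) m =
    ∑ i ∈ Ico 1 m, (1 / (i : ℝ)) * (-Real.log (1 - (i : ℝ) / m)) := by
  unfold Dm
  rw [← sum_Ico_reflect' m (fun i => (1 / (i : ℝ)) * (-Real.log (1 - (i : ℝ) / m)))]
  apply sum_congr rfl
  intro i hi
  have hi' := mem_Ico.mp hi
  have hH := hh_pos hm
  have h0 : (0 : ℝ) < i := by exact_mod_cast hi'.1
  have h1 : (i : ℝ) < m := by exact_mod_cast hi'.2
  have h2 : (0 : ℝ) < m := by linarith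
  rw [Nat.cast_sub hi'.2.le]
  have h3 : 1 - ((m : ℝ) - i) / m = i / m := by field_simp; ring
  rw [h3, Real.log_div h2.ne' h0.ne', Real.log_div h0.ne' h2.ne']
  unfold pU
  have h4 : (0 : ℝ) < (m : ℝ) - i := by linarith
  field_simp
  ring

lemma DU_hasSum (m : ℕ) (hm : 2 ≤ m) : HasSum (fun k => fk m k) (Dm pU (fun _ i => i) m) := by
  rw [DU_eq m hm]
  unfold fk
  apply hasSum_sum
  intro i hi
  have hi' := mem_Ico.mp hi
  have h0 : (0 : ℝ) < i := by exact_mod_cast hi'.1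
  have h1 : (i : ℝ) < m := by exact_mod_cast hi'.2
  have h2 : (0 : ℝ) < m := by linarith
  have h3 : |(i : ℝ) / m| < 1 := by
    rw [abs_of_pos (by positivity), div_lt_one h2]
    exact h1
  have := (Real.hasSum_pow_div_log_of_abs_lt_one h3).mul_left (1 / (i : ℝ))
  refine this.congr_fun ?_
  intro k
  ring

theorem DU_tendsto : Tendsto (Dm pU (fun _ i => i)) atTop (𝓝 (Real.pi ^ 2 / 6)) := by
  have hsum : HasSum (fun k : ℕ => 1 / ((k : ℝ) + 1) ^ 2) (Real.pi ^ 2 / 6) := by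
    have := (hasSum_nat_add_iff' (f := fun n : ℕ => 1 / (n : ℝ) ^ 2) 1).mpr hasSum_zeta_two
    simpa using this
  have h : Tendsto (fun m : ℕ => ∑' k : ℕ, fk m k) atTop
      (𝓝 (∑' k : ℕ, 1 / ((k : ℝ) + 1) ^ 2)) := by
    apply tendsto_tsum_of_dominated_convergence hsum.summable fk_tendsto
    filter_upwards [eventually_ge_atTop 1] with m hm k
    rw [Real.norm_of_nonneg (fk_nonneg m k)]
    exact fk_le m k hm
  rw [hsum.tsum_eq] at h
  apply h.congr'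
  filter_upwards [eventually_ge_atTop 2] with m hm
  exact (DU_hasSum m hm).tsum_eq

end Pool.Agent.Lib.MP_ce738d_pr
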