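import Pool.Agent.Lib.MP_ce738d_pr.Law
import Pool.Agent.Lib.MP_ce738d_pr.Compare

open Finset Filter Topology

namespace Pool.Agent.Lib.MP_ce738d_pr

open BinaryTree

/-- transition probabilities of the uniform-leaf chain -/
noncomputable def pU (m i : ℕ) : ℝ := 1 / (hh m * ((m : ℝ) - i))

lemma sum_Ico_one (k : ℕ) (F : ℕ → ℝ) :
    ∑ i ∈ Ico 1 (k + 2), F i = ∑ i ∈ range (k + 1), F (i + 1) := by
  rw [Finset.sum_Ico_eq_sum_range]
  have : k + 2 - 1 = k + 1 := by omega
  rw [this]
  apply Finset.sum_congr rfl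
  intro i _
  rw [add_comm]

lemma sum_splitProb_Ico {m : ℕ} (hm : 2 ≤ m) : ∑ i ∈ Ico 1 m, splitProb m i = 1 := by
  obtain ⟨k, rfl⟩ : ∃ k, m = k + 2 := ⟨m - 2, by omega⟩
  rw [sum_Ico_one, sum_splitProb]

lemma splitProb_symm {m i : ℕ} (hi : i ≤ m) : splitProb m (m - i) = splitProb m i := by
  unfold splitProb
  rw [Nat.cast_sub hi]
  congr 1
  ring

lemma sum_Ico_reflect' (m : ℕ) (F : ℕ → ℝ) :
    ∑ i ∈ Ico 1 m, F (m - i) = ∑ i ∈ Ico 1 m, F i := by
  apply Finset.sum_nbij' (fun i => m - i) (fun i => m - i)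
  · intro i hi; simp only [mem_Ico] at hi ⊢; omega
  · intro i hi; simp only [mem_Ico] at hi ⊢; omega
  · intro i hi; simp only [mem_Ico] at hi; omega
  · intro i hi; simp only [mem_Ico] at hi; omega
  · intro i hi; rfl

lemma fexp_rec {m : ℕ} (hm : 2 ≤ m) (f : BinaryTree Unit → ℝ) :
    fexp m f = ∑ i ∈ Ico 1 m, splitProb m i *
      fexp i (fun l => fexp (m - i) (fun r => f (node () l r))) := by
  obtain ⟨k, rfl⟩ : ∃ k, m = k + 2 := ⟨m - 2, by omega⟩
  rw [sum_Ico_one, fexp_succ_succ]
  apply Finset.sum_congr rfl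
  intro i _
  have : k + 2 - (i + 1) = k + 1 - i := by omega
  rw [this]

/-- Recursion for additive functionals of the form
`f (node l r) = 1 + x * f l + y * f r` depending only on sizes. -/
lemma fexp_affine {a b : ℕ} (ha : 1 ≤ a) (hb : 1 ≤ b) (F G : BinaryTree Unit → ℝ)
    (x y : ℝ) :
    fexp a (fun l => fexp b (fun r => 1 + (x * F l + y * G r))) =
      1 + (x * fexp a F + y * fexp b G) := by
  have h1 : ∀ l, fexp b (fun r => 1 + (x * F l + y * G r)) =
      (1 + y * fexp b G) + x * F l := by
    intro l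
    have : (fun r => 1 + (x * F l + y * G r)) = fun r => (1 + x * F l) + y * G r := by
      funext r; ring
    rw [this, fexp_add, fexp_const b hb, fexp_const_mul]
    ring
  simp only [h1]
  rw [fexp_add, fexp_const a ha, fexp_const_mul]
  ring

lemma meanLeafDepth_nil : meanLeafDepth nil = 0 := by
  simp [meanLeafDepth, leafDepths]

lemma sum_map_succ (L : List ℕ) : (L.map (· + 1)).sum = L.sum + L.length := by
  induction L with
  | nil => simp
  | cons a L ih => simp only [List.map_cons, List.sum_cons, List.length_cons, ih]; ring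

lemma meanLeafDepth_node (l r : BinaryTree Unit) :
    meanLeafDepth (node () l r) = 1 +
      ((l.numLeaves : ℝ) / ((l.numLeaves : ℝ) + r.numLeaves) * meanLeafDepth l +
       (r.numLeaves : ℝ) / ((l.numLeaves : ℝ) + r.numLeaves) * meanLeafDepth r) := by
  have hl : (0 : ℝ) < l.numLeaves := by exact_mod_cast numLeaves_pos l
  have hr : (0 : ℝ) < r.numLeaves := by exact_mod_cast numLeaves_pos r
  unfold meanLeafDepth
  simp only [leafDepths, sum_map_succ, List.sum_append, List.length_map, List.length_append,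
    length_leafDepths]
  push_cast
  field_simp
  ring

lemma EL_one : EL 1 = 0 := by
  unfold EL
  rw [expect_eq_fexp 1 le_rfl, fexp_one, meanLeafDepth_nil]

lemma EL_rec (m : ℕ) (hm : 2 ≤ m) : EL m = 1 + ∑ i ∈ Ico 1 m, pU m i * EL i := by
  have hH := hh_pos hm
  have hm0 : (0 : ℝ) < m := by exact_mod_cast (by omega : 0 < m)
  have h0 : ∀ i ∈ Ico 1 m, splitProb m i *
      fexp i (fun l => fexp (m - i) (fun r => meanLeafDepth (node () l r))) =
      splitProb m i + (splitProb m i * ((i : ℝ) / m) * EL i +
        splitProb m (m - i) * (((m - i : ℕ) : ℝ) / m) * EL (m - i)) := by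
    intro i hi
    have hi' := mem_Ico.mp hi
    have hcast : ((m - i : ℕ) : ℝ) = (m : ℝ) - i := by
      rw [Nat.cast_sub hi'.2.le]
    have h1 : fexp i (fun l => fexp (m - i) (fun r => meanLeafDepth (node () l r))) =
        fexp i (fun l => fexp (m - i) (fun r =>
          1 + ((i : ℝ) / m * meanLeafDepth l + ((m - i : ℕ) : ℝ) / m * meanLeafDepth r))) := by
      apply fexp_congr i hi'.1
      intro l hl
      apply fexp_congr (m - i) (by omega)
      intro r hr
      rw [meanLeafDepth_node, hl, hr]
      have : (i : ℝ) + ((m - i : ℕ) : ℝ) = m := by rw [hcast]; ring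
      rw [this]
    rw [h1, fexp_affine hi'.1 (by omega)]
    unfold EL
    rw [expect_eq_fexp i hi'.1, expect_eq_fexp (m - i) (by omega), splitProb_symm hi'.2.le]
    ring
  unfold EL at h0 ⊢
  rw [expect_eq_fexp m (by omega), fexp_rec hm, sum_congr rfl h0, sum_add_distrib,
    sum_add_distrib, sum_splitProb_Ico hm]
  rw [sum_Ico_reflect' m (fun i => splitProb m i * ((i : ℝ) / m) * expect i meanLeafDepth)]
  rw [← sum_add_distrib]
  congr 1
  apply sum_congr rfl
  intro i hi
  have hi' := mem_Ico.mp hi
  have h2 : (0 : ℝ) < (m : ℝ) - i := by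
    have : (i : ℝ) < m := by exact_mod_cast hi'.2
    linarith
  have h3 : (0 : ℝ) < i := by exact_mod_cast hi'.1
  unfold splitProb pU
  change (m : ℝ) / (2 * hh m * i * (m - i)) * (i / m) * expect i meanLeafDepth +
    (m : ℝ) / (2 * hh m * i * (m - i)) * (i / m) * expect i meanLeafDepth = _
  field_simp
  ring

lemma ELplus_one (β : ℝ) : ELplus β 1 = 0 := by
  unfold ELplus
  rw [expect_eq_fexp 1 le_rfl, fexp_one, greedyLength]

lemma ELplus_rec (β : ℝ) (m : ℕ) (hm : 2 ≤ m) :
    ELplus β m = 1 + ∑ i ∈ Ico 1 m, splitProb m i * ELplus β (max i (m - i)) := by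
  have h0 : ∀ i ∈ Ico 1 m, splitProb m i *
      fexp i (fun l => fexp (m - i) (fun r => greedyLength β (node () l r))) =
      splitProb m i + splitProb m i * ELplus β (max i (m - i)) := by
    intro i hi
    have hi' := mem_Ico.mp hi
    have hmi : 1 ≤ m - i := by omega
    rw [show splitProb m i + splitProb m i * ELplus β (max i (m - i)) =
      splitProb m i * (1 + ELplus β (max i (m - i))) by ring]
    congr 1
    unfold ELplus
    rcases lt_trichotomy (m - i) i with h | h | h
    · rw [max_eq_left h.le, expect_eq_fexp i hi'.1]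
      have h1 : fexp i (fun l => fexp (m - i) (fun r => greedyLength β (node () l r))) =
          fexp i (fun l => fexp (m - i) (fun r =>
            1 + (1 * greedyLength β l + 0 * greedyLength β r))) := by
        apply fexp_congr i hi'.1
        intro l hl
        apply fexp_congr (m - i) hmi
        intro r hr
        rw [greedyLength, if_pos (by omega)]
        ring
      rw [h1, fexp_affine hi'.1 hmi]
      ring
    · have h1 : fexp i (fun l => fexp (m - i) (fun r => greedyLength β (node () l r))) =
          fexp i (fun l => fexp (m - i) (fun r =>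
            1 + (β * greedyLength β l + (1 - β) * greedyLength β r))) := by
        apply fexp_congr i hi'.1
        intro l hl
        apply fexp_congr (m - i) hmi
        intro r hr
        rw [greedyLength, if_neg (by omega), if_neg (by omega)]
      rw [h1, fexp_affine hi'.1 hmi, h, max_self, expect_eq_fexp i hi'.1]
      ring
    · rw [max_eq_right h.le, expect_eq_fexp (m - i) hmi]
      have h1 : fexp i (fun l => fexp (m - i) (fun r => greedyLength β (node () l r))) =
          fexp i (fun l => fexp (m - i) (fun r =>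
            1 + (0 * greedyLength β l + 1 * greedyLength β r))) := by
        apply fexp_congr i hi'.1
        intro l hl
        apply fexp_congr (m - i) hmi
        intro r hr
        rw [greedyLength, if_neg (by omega), if_pos (by omega)]
        ring
      rw [h1, fexp_affine hi'.1 hmi]
      ring
  have h1 : ELplus β m = fexp m (greedyLength β) := by
    unfold ELplus
    rw [expect_eq_fexp m (by omega)]
  rw [h1, fexp_rec hm, sum_congr rfl h0, sum_add_distrib, sum_splitProb_Ico hm]

lemma pU_nonneg {m i : ℕ} (hm : 2 ≤ m) (hi : i ∈ Ico 1 m) : 0 ≤ pU m i := by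
  have hH := hh_pos hm
  have hi' := mem_Ico.mp hi
  have : (i : ℝ) < m := by exact_mod_cast hi'.2
  unfold pU
  have : (0 : ℝ) < (m : ℝ) - i := by linarith
  positivity

lemma hh_eq (m : ℕ) (hm : 1 ≤ m) : hh m = ∑ i ∈ Ico 1 m, 1 / (i : ℝ) := by
  unfold hh
  rw [harmonic_real, Finset.sum_Ico_eq_sum_range]
  apply sum_congr rfl
  intro i _
  push_cast
  rw [add_comm]

lemma sum_pU {m : ℕ} (hm : 2 ≤ m) : ∑ i ∈ Ico 1 m, pU m i = 1 := by
  have hH := hh_pos hm
  unfold pU
  have h1 : ∀ i ∈ Ico 1 m, 1 / (hh m * ((m : ℝ) - i)) = (1 / hh m) * (1 / ((m - i : ℕ) : ℝ)) := by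
    intro i hi
    have hi' := mem_Ico.mp hi
    rw [Nat.cast_sub hi'.2.le]
    field_simp
  rw [sum_congr rfl h1, ← mul_sum, sum_Ico_reflect' m (fun i => 1 / (i : ℝ)), ← hh_eq m (by omega)]
  field_simp

lemma EL_nonneg (m : ℕ) (hm : 1 ≤ m) : 0 ≤ EL m := by
  induction m using Nat.strong_induction_on with
  | _ m ih =>
    rcases Nat.lt_or_ge m 2 with h | h
    · have : m = 1 := by omega
      subst this
      rw [EL_one]
    · rw [EL_rec m h]
      have : 0 ≤ ∑ i ∈ Ico 1 m, pU m i * EL i := by
        apply sum_nonneg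
        intro i hi
        have hi' := mem_Ico.mp hi
        exact mul_nonneg (pU_nonneg h hi) (ih i hi'.2 hi'.1)
      linarith

lemma ELplus_nonneg (β : ℝ) (m : ℕ) (hm : 1 ≤ m) : 0 ≤ ELplus β m := by
  induction m using Nat.strong_induction_on with
  | _ m ih =>
    rcases Nat.lt_or_ge m 2 with h | h
    · have : m = 1 := by omega
      subst this
      rw [ELplus_one]
    · rw [ELplus_rec β m h]
      have : 0 ≤ ∑ i ∈ Ico 1 m, splitProb m i * ELplus β (max i (m - i)) := by
        apply sum_nonneg
        intro i hi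
        have hi' := mem_Ico.mp hi
        refine mul_nonneg (splitProb_nonneg hi'.2.le) (ih _ ?_ ?_)
        · omega
        · omega
      linarith

end Pool.Agent.Lib.MP_ce738d_pr
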